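import Pool.Agent.Helper54.Dub.Ops

/-!
# Locality of the operators, lengths
-/

namespace Pool.Agent.Helper54.Dub

open Pool.Agent.Helper26.WD Piece Skein

/-! ### Lengths -/

section Len

variable {Ω : Type} [DecidableEq Ω] [Dir Ω]

theorem step_some {p : Piece Ω} {s t : List Ω} (h : step p s = some t) :
    p.pos + p.inn ≤ s.length ∧ t.length + p.inn = s.length + p.out := by
  cases p with
  | cup i a =>
    simp only [step] at h
    split_ifs at h with hi
    rw [Option.some.injEq] at h
    subst h
    simp only [pos, inn, out, List.length_append, List.length_cons, List.length_take,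
      List.length_drop]
    omega
  | cap i =>
    simp only [step] at h
    split at h
    · rename_i a b u hu
      split_ifs at h
      rw [Option.some.injEq] at h
      subst h
      have := congrArg List.length hu
      simp only [List.length_drop, List.length_cons] at this
      simp only [pos, inn, out, List.length_append, List.length_take]
      omega
    · simp at h
  | cr i o =>
    simp only [step] at h
    split at h
    · rename_i a b u hu
      rw [Option.some.injEq] at h
      subst h
      have := congrArg List.length hu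
      simp only [List.length_drop, List.length_cons] at this
      simp only [pos, inn, out, List.length_append, List.length_take, List.length_cons]
      omega
    · simp at h

end Len

theorem step_unit {p : Piece Unit} {s : List Unit} (h : p.pos + p.inn ≤ s.length) :
    ∃ t, step p s = some t := by
  cases p with
  | cup i a =>
    simp only [pos, inn, add_zero] at h
    simp only [step, if_pos h]
    exact ⟨_, rfl⟩
  | cap i =>
    simp only [pos, inn] at h
    have h1 : i + 1 < s.length := by omega
    have e : s.drop i = s[i] :: s[i + 1] :: s.drop (i + 2) := by simp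
    simp only [step]
    rw [e]
    simp
  | cr i o =>
    simp only [pos, inn] at h
    have h1 : i + 1 < s.length := by omega
    have e : s.drop i = s[i] :: s[i + 1] :: s.drop (i + 2) := by simp
    simp only [step]
    rw [e]
    simp

variable {K : Type} [Field K] {H : Skein Bool K} {r h : K}

theorem opL_mem {Q Q' : List Bool → Prop} (A : List (Piece Bool))
    (hA : ∀ s, Q s → ∀ t, run A s = some t → Q' t) {φ : E Bool K} (hφ : φ ∈ H.M Q) :
    opL K A φ ∈ H.M Q' := by
  induction A generalizing Q φ with
  | nil => exact H.M_mono (fun s hs => hA s hs s rfl) hφ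
  | cons p A ih =>
    rw [opL_cons]
    refine ih (Q := fun t => ∃ s, Q s ∧ step p s = some t) ?_ ?_
    · rintro t ⟨s, hs, h1⟩ u hu
      refine hA s hs u ?_
      rw [run_cons, h1, Option.bind_some]
      exact hu
    · exact H.op_mem p (fun s hs t ht => ⟨s, hs, ht⟩) hφ

theorem M_false {φ : E Bool K} (hφ : φ ∈ H.M (fun _ => False)) : φ = 0 := by
  induction hφ using Submodule.span_induction with
  | mem φ hφ =>
    obtain ⟨D, s, h1, h2, rfl⟩ := hφ
    exact h2.elim
  | zero => rfl
  | add x y _ _ hx hy => rw [hx, hy, add_zero]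
  | smul c x _ hx => rw [hx, smul_zero]

/-- Every word in the expansion of a piece has the same effect on lengths as the piece. -/
theorem terms_run (p : Piece Unit) {cw : K × List (Piece Bool)} (hcw : cw ∈ terms r h p)
    {s t : List Bool} (hst : run cw.2 s = some t) :
    p.pos + p.inn ≤ s.length ∧ t.length + p.inn = s.length + p.out := by
  -- a tactic-like lemma for words
  have key : ∀ (x : Piece Bool) (A : List (Piece Bool)) (s t : List Bool),
      run (x :: A) s = some t → ∃ u, run A u = some t ∧ x.pos + x.inn ≤ s.length ∧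
        u.length + x.inn = s.length + x.out := by
    intro x A s t hr
    rw [run_cons, Option.bind_eq_some_iff] at hr
    obtain ⟨u, h1, h2⟩ := hr
    exact ⟨u, h2, step_some h1⟩
  cases p with
  | cup i a =>
    simp only [terms, List.mem_cons, List.not_mem_nil, or_false] at hcw
    rcases hcw with rfl | rfl
    all_goals
      obtain ⟨u, h1, h2, h3⟩ := key _ _ _ _ hst
      simp only [run_nil, Option.some.injEq] at h1
      subst h1
      simp only [pos, inn, out] at h2 h3 ⊢
      omega
  | cap i =>
    simp only [terms, List.mem_cons, List.not_mem_nil, or_false] at hcw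
    rcases hcw with rfl | rfl
    all_goals
      obtain ⟨u, h1, h2, h3⟩ := key _ _ _ _ hst
      obtain ⟨v, h4, h5, h6⟩ := key _ _ _ _ h1
      obtain ⟨w, h7, h8, h9⟩ := key _ _ _ _ h4
      simp only [run_nil, Option.some.injEq] at h7
      subst h7
      simp only [pos, inn, out] at h2 h3 h5 h6 h8 h9 ⊢
      omega
  | cr i o =>
    cases o <;> simp only [terms, List.mem_cons, List.not_mem_nil, or_false] at hcw
    all_goals
      rcases hcw with rfl | rfl | rfl
      · obtain ⟨u, h1, h2, h3⟩ := key _ _ _ _ hst
        simp only [run_nil, Option.some.injEq] at h1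
        subst h1
        simp only [pos, inn, out] at h2 h3 ⊢
        omega
      · obtain ⟨u, h1, h2, h3⟩ := key _ _ _ _ hst
        obtain ⟨v, h4, h5, h6⟩ := key _ _ _ _ h1
        obtain ⟨w, h7, h8, h9⟩ := key _ _ _ _ h4
        obtain ⟨x, h10, h11, h12⟩ := key _ _ _ _ h7
        simp only [run_nil, Option.some.injEq] at h10
        subst h10
        simp only [pos, inn, out] at h2 h3 h5 h6 h8 h9 h11 h12 ⊢
        omega
      · obtain ⟨u, h1, h2, h3⟩ := key _ _ _ _ hst
        obtain ⟨v, h4, h5, h6⟩ := key _ _ _ _ h1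
        obtain ⟨w, h7, h8, h9⟩ := key _ _ _ _ h4
        obtain ⟨x, h10, h11, h12⟩ := key _ _ _ _ h7
        obtain ⟨y, h13, h14, h15⟩ := key _ _ _ _ h10
        obtain ⟨z, h16, h17, h18⟩ := key _ _ _ _ h13
        simp only [run_nil, Option.some.injEq] at h16
        subst h16
        simp only [pos, inn, out] at h2 h3 h5 h6 h8 h9 h11 h12 h14 h15 h17 h18 ⊢
        omega

theorem opT_mem {Q Q' : List Bool → Prop} (T : List (K × List (Piece Bool)))
    (hT : ∀ cw ∈ T, ∀ s, Q s → ∀ t, run cw.2 s = some t → Q' t) {φ : E Bool K}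
    (hφ : φ ∈ H.M Q) : opT T φ ∈ H.M Q' := by
  induction T with
  | nil => rw [opT_nil_apply]; exact Submodule.zero_mem _
  | cons x T ih =>
    rw [opT_cons_apply]
    refine Submodule.add_mem _ (Submodule.smul_mem _ _ ?_) (ih fun cw hcw => hT cw (by simp [hcw]))
    exact opL_mem x.2 (hT x (by simp)) hφ

theorem act_mem {Q Q' : List Bool → Prop} (p : Piece Unit)
    (hp : ∀ s, Q s → ∀ t : List Bool, p.pos + p.inn ≤ s.length →
      t.length + p.inn = s.length + p.out → Q' t) {φ : E Bool K}
    (hφ : φ ∈ H.M Q) : act r h p φ ∈ H.M Q' := by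
  refine opT_mem (H := H) _ ?_ hφ
  intro cw hcw s hs t ht
  obtain ⟨h1, h2⟩ := terms_run p hcw ht
  exact hp s hs t h1 h2

/-! ### Locality -/

/-- The operator `L` changes `m` strands from the position `i` on to `n` strands, and commutes with
the operators to the right of these. -/
structure Loc (H : Skein Bool K) (i m n : ℕ) (L : E Bool K →ₗ[K] E Bool K) : Prop where
  mem : ∀ φ ∈ H.V, L φ ∈ H.V
  comm : ∀ (p : Piece Bool), i ≤ p.pos → ∀ φ ∈ H.V,
    op K (p.shift n) (L φ) = L (op K (p.shift m) φ)

theorem Loc_id (i m : ℕ) : Loc H i m m LinearMap.id := ⟨fun _ h => h, fun _ _ _ _ => rfl⟩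

theorem Loc_comp {i m n k : ℕ} {L L' : E Bool K →ₗ[K] E Bool K} (h1 : Loc H i m n L)
    (h2 : Loc H i n k L') : Loc H i m k (L' ∘ₗ L) := by
  refine ⟨fun φ h => h2.mem _ (h1.mem _ h), fun p hp φ h => ?_⟩
  rw [LinearMap.comp_apply, LinearMap.comp_apply, h2.comm p hp _ (h1.mem _ h), h1.comm p hp _ h]

theorem Loc_zero (i m n : ℕ) : Loc H i m n 0 :=
  ⟨fun _ _ => Submodule.zero_mem _, fun _ _ _ _ => by simp⟩

theorem Loc_add {i m n : ℕ} {L L' : E Bool K →ₗ[K] E Bool K} (h1 : Loc H i m n L)
    (h2 : Loc H i m n L') : Loc H i m n (L + L') := by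
  refine ⟨fun φ h => Submodule.add_mem _ (h1.mem _ h) (h2.mem _ h), fun p hp φ h => ?_⟩
  rw [LinearMap.add_apply, LinearMap.add_apply, map_add, h1.comm p hp _ h, h2.comm p hp _ h]

theorem Loc_smul {i m n : ℕ} {L : E Bool K →ₗ[K] E Bool K} (c : K) (h1 : Loc H i m n L) :
    Loc H i m n (c • L) := by
  refine ⟨fun φ h => Submodule.smul_mem _ _ (h1.mem _ h), fun p hp φ h => ?_⟩
  rw [LinearMap.smul_apply, LinearMap.smul_apply, map_smul, h1.comm p hp _ h]

theorem Loc_op {i : ℕ} (k : ℕ) (x : Piece Bool) (hx : x.pos ≤ i + k) {m n : ℕ}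
    (hm : m = k + x.inn) (hn : n = k + x.out) : Loc H i m n (op K x) := by
  subst hm hn
  refine ⟨fun φ h => H.op_mem_V x h, fun p hp φ h => ?_⟩
  have h1 : x.pos ≤ (p.shift k).pos := by
    have : (p.shift k).pos = p.pos + k := by cases p <;> rfl
    omega
  have := H.far x (p.shift k) h1 h
  rwa [shift_shift, shift_shift] at this

theorem Loc_cons {i m n k : ℕ} {x : Piece Bool} {w : List (Piece Bool)}
    (h1 : Loc H i m n (op K x)) (h2 : Loc H i n k (opL K w)) : Loc H i m k (opL K (x :: w)) :=
  Loc_comp h1 h2

theorem Loc_nil (i m : ℕ) : Loc H i m m (opL K []) := Loc_id i m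

theorem Loc_opT {i m n : ℕ} (T : List (K × List (Piece Bool)))
    (hT : ∀ cw ∈ T, Loc H i m n (opL K cw.2)) : Loc H i m n (opT T) := by
  induction T with
  | nil => exact Loc_zero i m n
  | cons x T ih =>
    rw [opT_cons]
    exact Loc_add (Loc_smul _ (hT x (by simp))) (ih fun cw hcw => hT cw (by simp [hcw]))

theorem Loc_act (p : Piece Unit) : Loc H p.pos p.inn p.out (act r h p) := by
  refine Loc_opT _ ?_
  intro cw hcw
  cases p with
  | cup i a =>
    simp only [terms, List.mem_cons, List.not_mem_nil, or_false] at hcw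
    rcases hcw with rfl | rfl
    all_goals
      exact Loc_cons (Loc_op 0 _ (by simp [pos]) rfl rfl) (Loc_nil _ _)
  | cap i =>
    simp only [terms, List.mem_cons, List.not_mem_nil, or_false] at hcw
    rcases hcw with rfl | rfl
    all_goals
      exact Loc_cons (Loc_op 2 _ (by simp [pos]) rfl rfl)
        (Loc_cons (Loc_op 2 _ (by simp [pos]) rfl rfl)
        (Loc_cons (Loc_op 0 _ (by simp [pos]) rfl rfl) (Loc_nil _ _)))
  | cr i o =>
    cases o <;> simp only [terms, List.mem_cons, List.not_mem_nil, or_false] at hcw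
    all_goals
      rcases hcw with rfl | rfl | rfl
      · exact Loc_cons (Loc_op 0 _ (by simp [pos]) rfl rfl) (Loc_nil _ _)
      · exact Loc_cons (Loc_op 2 _ (by simp [pos]) rfl rfl)
          (Loc_cons (Loc_op 2 _ (by simp [pos]) rfl rfl)
          (Loc_cons (Loc_op 2 _ (by simp [pos]) rfl rfl)
          (Loc_cons (Loc_op 2 _ (by simp [pos]) rfl rfl) (Loc_nil _ _))))
      · exact Loc_cons (Loc_op 2 _ (by simp [pos]) rfl rfl)
          (Loc_cons (Loc_op 2 _ (by simp [pos]) rfl rfl)
          (Loc_cons (Loc_op 2 _ (by simp [pos]) rfl rfl)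
          (Loc_cons (Loc_op 2 _ (by simp [pos]) rfl rfl)
          (Loc_cons (Loc_op 0 _ (by simp [pos]) rfl rfl)
          (Loc_cons (Loc_op 0 _ (by simp [pos]) rfl rfl) (Loc_nil _ _))))))

theorem Loc_comm_opL {i m n : ℕ} {L : E Bool K →ₗ[K] E Bool K} (hL : Loc H i m n L)
    (w : List (Piece Bool)) (hw : ∀ p ∈ w, i ≤ p.pos) {φ : E Bool K} (hφ : φ ∈ H.V) :
    opL K (w.map (Piece.shift n)) (L φ) = L (opL K (w.map (Piece.shift m)) φ) := by
  induction w generalizing φ with
  | nil => rfl
  | cons p w ih =>
    rw [List.map_cons, List.map_cons, opL_cons, opL_cons, hL.comm p (hw p (by simp)) φ hφ]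
    exact ih (fun q hq => hw q (by simp [hq])) (H.op_mem_V _ hφ)

theorem Loc_comm_opT {i m n : ℕ} {L : E Bool K →ₗ[K] E Bool K} (hL : Loc H i m n L)
    (T : List (K × List (Piece Bool))) (hT : ∀ cw ∈ T, ∀ p ∈ cw.2, i ≤ p.pos) {φ : E Bool K}
    (hφ : φ ∈ H.V) :
    opT (T.map fun cw => (cw.1, cw.2.map (Piece.shift n))) (L φ) =
      L (opT (T.map fun cw => (cw.1, cw.2.map (Piece.shift m))) φ) := by
  induction T with
  | nil => simp [opT_nil]
  | cons x T ih =>
    rw [List.map_cons, List.map_cons, opT_cons_apply, opT_cons_apply, map_add, map_smul,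
      Loc_comm_opL hL x.2 (hT x (by simp)) hφ, ih fun cw hcw => hT cw (by simp [hcw])]

theorem terms_shift (y : Piece Unit) (k : ℕ) :
    terms r h (y.shift k) = (terms r h y).map fun cw => (cw.1, cw.2.map (Piece.shift k)) := by
  cases y with
  | cup i a => rfl
  | cap i => simp [terms, shift, Nat.add_right_comm i k]
  | cr i o => cases o <;> simp [terms, shift, Nat.add_right_comm i k]

theorem terms_pos (y : Piece Unit) {cw : K × List (Piece Bool)} (hcw : cw ∈ terms r h y)
    {p : Piece Bool} (hp : p ∈ cw.2) : y.pos ≤ p.pos := by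
  cases y with
  | cup i a =>
    simp only [terms, List.mem_cons, List.not_mem_nil, or_false] at hcw
    rcases hcw with rfl | rfl <;>
      (simp only [List.mem_cons, List.not_mem_nil, or_false] at hp; subst hp; exact le_rfl)
  | cap i =>
    simp only [terms, List.mem_cons, List.not_mem_nil, or_false] at hcw
    rcases hcw with rfl | rfl <;>
      (simp only [List.mem_cons, List.not_mem_nil, or_false] at hp
       rcases hp with rfl | rfl | rfl <;> simp [pos])
  | cr i o =>
    cases o <;> simp only [terms, List.mem_cons, List.not_mem_nil, or_false] at hcw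
    all_goals
      rcases hcw with rfl | rfl | rfl
      · simp only [List.mem_cons, List.not_mem_nil, or_false] at hp; subst hp; exact le_rfl
      · simp only [List.mem_cons, List.not_mem_nil, or_false] at hp
        rcases hp with rfl | rfl | rfl | rfl <;> simp [pos]
      · simp only [List.mem_cons, List.not_mem_nil, or_false] at hp
        rcases hp with rfl | rfl | rfl | rfl | rfl | rfl <;> simp [pos]

theorem farU (x y : Piece Unit) (hxy : x.pos ≤ y.pos) {φ : E Bool K} (hφ : φ ∈ H.V) :
    act r h (y.shift x.out) (act r h x φ) = act r h x (act r h (y.shift x.inn) φ) := by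
  have e := Loc_comm_opT (Loc_act (H := H) (r := r) (h := h) x) (terms r h y)
    (fun cw hcw p hp => hxy.trans (terms_pos y hcw hp)) hφ
  rw [← terms_shift, ← terms_shift] at e
  exact e

end Pool.Agent.Helper54.Dub
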