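import Pool.Agent.Helper54.Dub.Three
import Pool.Agent.Helper54.Dub.Far

/-!
# The Dubrovnik functional obtained from a framed oriented HOMFLY functional (Jaeger's formula)
-/

namespace Pool.Agent.Helper54.Dub

open Pool.Agent.Helper26.WD Piece Skein

variable {K : Type} [Field K] {H : Skein Bool K} {q A h r : K}

namespace IsJ

variable (J : IsJ H q A h r)

include J

theorem r3U (i : ℕ) (o₁ o₂ o₃ : Bool) (ho : ¬ (o₁ = o₃ ∧ o₂ ≠ o₁))
    (M : ∀ (o : Bool) (j : ℕ) (φ : E Bool K), φ ∈ H.M (fun s => i + 3 ≤ s.length) →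
      act r h (cr j o) φ ∈ H.M (fun s => i + 3 ≤ s.length))
    {φ : E Bool K} (hφ : φ ∈ H.M (fun s => i + 3 ≤ s.length)) :
    act r h (cr i o₃) (act r h (cr (i + 1) o₂) (act r h (cr i o₁) φ)) =
      act r h (cr (i + 1) o₁) (act r h (cr i o₂) (act r h (cr (i + 1) o₃) φ)) := by
  have FF : ∀ (o : Bool) {ψ : E Bool K}, ψ ∈ H.M (fun s => i + 3 ≤ s.length) →
      act r h (cr i (!o)) (act r h (cr i o) ψ) = ψ := by
    intro o ψ hψ
    have m2 : ψ ∈ H.M (fun s => i + 2 ≤ s.length) := H.M_mono (fun s hs => by omega) hψ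
    cases o
    · exact J.r2UT i m2
    · exact J.r2UF i m2
  have GG : ∀ (o : Bool) {ψ : E Bool K}, ψ ∈ H.M (fun s => i + 3 ≤ s.length) →
      act r h (cr (i + 1) (!o)) (act r h (cr (i + 1) o) ψ) = ψ := by
    intro o ψ hψ
    have m2 : ψ ∈ H.M (fun s => i + 1 + 2 ≤ s.length) := H.M_mono (fun s hs => by omega) hψ
    cases o
    · exact J.r2UT (i + 1) m2
    · exact J.r2UF (i + 1) m2
  have R : ∀ {ψ : E Bool K}, ψ ∈ H.M (fun s => i + 3 ≤ s.length) →
      act r h (cr i true) (act r h (cr (i + 1) true) (act r h (cr i true) ψ)) =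
      act r h (cr (i + 1) true) (act r h (cr i true) (act r h (cr (i + 1) true) ψ)) :=
    fun hψ => J.r3_aux i hψ
  have inv : ∀ (a b c : Bool), (∀ {ψ : E Bool K}, ψ ∈ H.M (fun s => i + 3 ≤ s.length) →
      act r h (cr i c) (act r h (cr (i + 1) b) (act r h (cr i a) ψ)) =
      act r h (cr (i + 1) a) (act r h (cr i b) (act r h (cr (i + 1) c) ψ))) →
      ∀ {ψ : E Bool K}, ψ ∈ H.M (fun s => i + 3 ≤ s.length) →
      act r h (cr i (!a)) (act r h (cr (i + 1) (!b)) (act r h (cr i (!c)) ψ)) =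
      act r h (cr (i + 1) (!c)) (act r h (cr i (!b)) (act r h (cr (i + 1) (!a)) ψ)) := by
    intro a b c hyp ψ hψ
    have m1 := M (!a) (i + 1) _ hψ
    have m2 := M (!b) i _ m1
    have m3 := M (!c) (i + 1) _ m2
    have e := hyp m3
    have e1 := GG (!c) m2
    have e2 := FF (!b) m1
    have e3 := GG (!a) hψ
    rw [Bool.not_not] at e1 e2 e3
    rw [e1, e2, e3] at e
    have n1 := M a i _ m3
    have n2 := M b (i + 1) _ n1
    calc act r h (cr i (!a)) (act r h (cr (i + 1) (!b)) (act r h (cr i (!c)) ψ))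
        = act r h (cr i (!a)) (act r h (cr (i + 1) (!b)) (act r h (cr i (!c))
          (act r h (cr i c) (act r h (cr (i + 1) b) (act r h (cr i a)
          (act r h (cr (i + 1) (!c)) (act r h (cr i (!b)) (act r h (cr (i + 1) (!a)) ψ)))))))) := by
          rw [e]
      _ = _ := by rw [FF c n2, GG b n1, FF a m3]
  -- true true false
  have T3 : ∀ {ψ : E Bool K}, ψ ∈ H.M (fun s => i + 3 ≤ s.length) →
      act r h (cr i false) (act r h (cr (i + 1) true) (act r h (cr i true) ψ)) =
      act r h (cr (i + 1) true) (act r h (cr i true) (act r h (cr (i + 1) false) ψ)) := by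
    intro ψ hψ
    have e := R (M false (i + 1) _ hψ)
    have e1 := GG false hψ
    rw [Bool.not_false] at e1
    rw [e1] at e
    rw [← e]
    exact FF true (M true (i + 1) _ (M true i _ (M false (i + 1) _ hψ)))
  -- false true true
  have T1 : ∀ {ψ : E Bool K}, ψ ∈ H.M (fun s => i + 3 ≤ s.length) →
      act r h (cr i true) (act r h (cr (i + 1) true) (act r h (cr i false) ψ)) =
      act r h (cr (i + 1) false) (act r h (cr i true) (act r h (cr (i + 1) true) ψ)) := by
    intro ψ hψ
    have e := R (M false i _ hψ)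
    have e1 := FF false hψ
    rw [Bool.not_false] at e1
    rw [e1] at e
    rw [e]
    exact (GG true (M true i _ (M true (i + 1) _ (M false i _ hψ)))).symm
  have S1 := @inv _ _ _ @R
  have S2 := @inv _ _ _ @T3
  have S3 := @inv _ _ _ @T1
  simp only [Bool.not_true, Bool.not_false] at S1 S2 S3
  cases o₁ <;> cases o₂ <;> cases o₃ <;> simp at ho
  · exact S1 hφ
  · exact S3 hφ
  · exact T1 hφ
  · exact S2 hφ
  · exact T3 hφ
  · exact R hφ

end IsJ

/-! ### The functional -/

/-- The action of an unoriented diagram. -/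
def actL (r h : K) : List (Piece Unit) → E Bool K →ₗ[K] E Bool K
  | [] => LinearMap.id
  | p :: D => actL r h D ∘ₗ act r h p

theorem actL_nil (φ : E Bool K) : actL r h [] φ = φ := rfl

theorem actL_cons (p : Piece Unit) (D : List (Piece Unit)) (φ : E Bool K) :
    actL r h (p :: D) φ = actL r h D (act r h p φ) := rfl

theorem actL_append (D D' : List (Piece Unit)) (φ : E Bool K) :
    actL r h (D ++ D') φ = actL r h D' (actL r h D φ) := by
  induction D generalizing φ with
  | nil => rfl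
  | cons p D ih => exact ih _

/-- The Dubrovnik functional. -/
def dub (H : Skein Bool K) (r h : K) (D : List (Piece Unit)) : K := actL r h D (H.vec []) []

theorem act_len {n m : ℕ} (p : Piece Unit) (hm : m + p.inn = n + p.out) {φ : E Bool K}
    (hφ : φ ∈ H.M (fun s => s.length = n)) : act r h p φ ∈ H.M (fun s => s.length = m) :=
  act_mem p (fun s hs t _ h2 => by omega) hφ

theorem act_zero {n : ℕ} (p : Piece Unit) (hm : ¬ (p.pos + p.inn ≤ n)) {φ : E Bool K}
    (hφ : φ ∈ H.M (fun s => s.length = n)) : act r h p φ = 0 :=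
  M_false (act_mem p (fun s hs t h1 _ => by omega) hφ)

theorem actL_run {D : List (Piece Unit)} {s t : List Unit} (hst : run D s = some t)
    {φ : E Bool K} (hφ : φ ∈ H.M (fun u => u.length = s.length)) :
    actL r h D φ ∈ H.M (fun u => u.length = t.length) := by
  induction D generalizing s φ with
  | nil =>
    simp only [run_nil, Option.some.injEq] at hst
    rw [← hst]
    exact hφ
  | cons p D ih =>
    rw [run_cons, Option.bind_eq_some_iff] at hst
    obtain ⟨u, h1, h2⟩ := hst
    exact ih h2 (act_len p (step_some h1).2 hφ)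

theorem actL_none {D : List (Piece Unit)} {s : List Unit} (hst : run D s = none)
    {φ : E Bool K} (hφ : φ ∈ H.M (fun u => u.length = s.length)) :
    actL r h D φ = 0 := by
  induction D generalizing s φ with
  | nil => simp at hst
  | cons p D ih =>
    rw [run_cons] at hst
    rw [actL_cons]
    by_cases hp : p.pos + p.inn ≤ s.length
    · obtain ⟨t, ht⟩ := step_unit hp
      rw [ht, Option.bind_some] at hst
      exact ih hst (act_len p (step_some ht).2 hφ)
    · rw [act_zero p hp hφ, map_zero]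

theorem vec_nil_mem : H.vec [] ∈ H.M (fun u => u.length = ([] : List Unit).length) :=
  H.vec_mem (s := []) rfl rfl

theorem dub_zero {D : List (Piece Unit)} (hD : run D [] ≠ some []) : dub H r h D = 0 := by
  unfold dub
  cases hr : run D [] with
  | none => rw [actL_none hr vec_nil_mem]; rfl
  | some t =>
    have ht : t.length ≠ 0 := by
      intro h0
      rw [List.length_eq_zero_iff] at h0
      exact hD (by rw [hr, h0])
    have := actL_run (r := r) (h := h) hr (vec_nil_mem (H := H))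
    generalize actL r h D (H.vec []) = ψ at this
    induction this using Submodule.span_induction with
    | mem φ hφ =>
      obtain ⟨D', s, h1, h2, rfl⟩ := hφ
      change H.f (D' ++ []) = 0
      rw [List.append_nil]
      refine H.zero _ ?_
      rw [h1]
      intro h3
      rw [Option.some.injEq] at h3
      rw [h3] at h2
      exact ht h2.symm
    | zero => rfl
    | add x y _ _ hx hy => rw [Pi.add_apply, hx, hy, add_zero]
    | smul c x _ hx => rw [Pi.smul_apply, hx, smul_zero]

theorem valid_of {D₁ A D₂ : List (Piece Unit)} (hD : IsDiagram (D₁ ++ A ++ D₂)) :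
    ∃ s t, run D₁ [] = some s ∧ run A s = some t := by
  unfold IsDiagram at hD
  rw [List.append_assoc, run_append, Option.bind_eq_some_iff] at hD
  obtain ⟨s, h1, h2⟩ := hD
  rw [run_append, Option.bind_eq_some_iff] at h2
  obtain ⟨t, h3, -⟩ := h2
  exact ⟨s, t, h1, h3⟩

theorem run_split {p : Piece Unit} {A : List (Piece Unit)} {s t : List Unit}
    (hst : run (p :: A) s = some t) : p.pos + p.inn ≤ s.length ∧
      ∃ u, run A u = some t ∧ u.length + p.inn = s.length + p.out := by
  rw [run_cons, Option.bind_eq_some_iff] at hst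
  obtain ⟨u, h1, h2⟩ := hst
  exact ⟨(step_some h1).1, u, h2, (step_some h1).2⟩

theorem cr_mem (i : ℕ) (o : Bool) (j : ℕ) (φ : E Bool K)
    (hφ : φ ∈ H.M (fun s => i + 3 ≤ s.length)) :
    act r h (cr j o) φ ∈ H.M (fun s => i + 3 ≤ s.length) :=
  act_mem _ (fun s hs t _ h2 => by simp only [inn, out] at h2; omega) hφ

theorem IsJ.regU (J : IsJ H q A h r) {X Y : List (Piece Unit)} (hXY : RegMove X Y)
    {s t : List Unit} (hst : run X s = some t) {φ : E Bool K}
    (hφ : φ ∈ H.M (fun u => u.length = s.length)) : actL r h X φ = actL r h Y φ := by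
  have hV := H.mem_V hφ
  have hr := J.r0
  cases hXY with
  | far x y hxy => exact farU x y hxy hV
  | zigR i a =>
    obtain ⟨h1, u, h2, h3⟩ := run_split hst
    obtain ⟨h4, -⟩ := run_split h2
    simp only [pos, inn, out] at h1 h3 h4
    exact T_one hr i (H.M_mono (fun v hv => by omega) hφ)
  | zigL i a =>
    obtain ⟨h1, u, h2, h3⟩ := run_split hst
    simp only [pos, inn, out] at h1 h3
    exact T_two hr i (H.M_mono (fun v hv => by omega) hφ)
  | slideCup i a o =>
    obtain ⟨h1, u, h2, h3⟩ := run_split hst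
    obtain ⟨h4, -⟩ := run_split h2
    simp only [pos, inn, out] at h1 h3 h4
    cases o
    · exact J.slideCupF i (H.M_mono (fun v hv => by omega) hφ)
    · exact J.slideCupT i (H.M_mono (fun v hv => by omega) hφ)
  | slideCap i o =>
    obtain ⟨h1, u, h2, h3⟩ := run_split hst
    obtain ⟨h4, -⟩ := run_split h2
    simp only [pos, inn, out] at h1 h3 h4
    cases o
    · exact J.slideCapF i (H.M_mono (fun v hv => by omega) hφ)
    · exact J.slideCapT i (H.M_mono (fun v hv => by omega) hφ)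
  | r2 i o =>
    obtain ⟨h1, -⟩ := run_split hst
    simp only [pos, inn] at h1
    cases o
    · exact J.r2UT i (H.M_mono (fun v hv => by omega) hφ)
    · exact J.r2UF i (H.M_mono (fun v hv => by omega) hφ)
  | r3 i o₁ o₂ o₃ ho =>
    obtain ⟨h1, u, h2, h3⟩ := run_split hst
    obtain ⟨h4, -⟩ := run_split h2
    simp only [pos, inn, out] at h1 h3 h4
    exact J.r3U i o₁ o₂ o₃ ho (cr_mem i) (H.M_mono (fun v hv => by omega) hφ)

theorem vec_M {D₁ : List (Piece Unit)} {s : List Unit} (h1 : run D₁ [] = some s) :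
    actL r h D₁ (H.vec []) ∈ H.M (fun u => u.length = s.length) :=
  actL_run h1 vec_nil_mem

theorem dub_mid (D₁ A D₂ : List (Piece Unit)) :
    dub H r h (D₁ ++ A ++ D₂) = actL r h D₂ (actL r h A (actL r h D₁ (H.vec []))) [] := by
  rw [dub, actL_append, actL_append]

theorem IsJ.dub_reg (J : IsJ H q A h r) {D D' : List (Piece Unit)}
    (hDD : StepBy RegMove D D') : dub H r h D = dub H r h D' := by
  obtain ⟨D₁, X, Y, D₂, hM, rfl, rfl, hD, -⟩ := hDD
  obtain ⟨s, t, h1, h2⟩ := valid_of hD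
  rw [dub_mid, dub_mid, J.regU hM h2 (vec_M h1)]

theorem dub_nil (h1 : H.f [] = 1) : dub H r h [] = 1 := h1

theorem IsJ.dub_circle (J : IsJ H q A h r) (h1 : H.f [] = 1) :
    dub H r h [cup 0 (), cap 0] = (A ^ 2 / q - (A ^ 2 / q)⁻¹) / h + 1 := by
  have hV : H.vec [] ∈ T H 0 [] := H.vec_mem (s := []) rfl ⟨[], [], rfl, rfl⟩
  have hu : op K (cup 0 true) (H.vec []) ∈ T H 0 [true, false] := T_cup hV
  have hd : op K (cup 0 false) (H.vec []) ∈ T H 0 [false, true] := T_cup hV
  have e : dub H r h [cup 0 (), cap 0] =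
      (act r h (cap 0) (act r h (cup 0 ()) (H.vec []))) [] := rfl
  rw [e, act_cup, map_add, map_smul, act_cap_true hu, act_cap_false hd, H.circ_nil, H.circ_nil]
  have e0 : (H.vec []) [] = 1 := h1
  simp only [Pi.add_apply, Pi.smul_apply, e0, smul_eq_mul, mul_one]
  have hq := J.hq
  have hA := J.hA
  have h0 := J.h0
  have hh := J.hh
  have h00 : q - q⁻¹ ≠ 0 := hh ▸ h0
  have e1 : (A ^ 2 / q - (A ^ 2 / q)⁻¹) / h + 1 = (A ^ 2 / q - (A ^ 2 / q)⁻¹ + h) / h := by
    field_simp
  rw [e1, J.de, J.hr, hh]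
  rw [← mul_div_assoc, ← mul_div_assoc, ← add_div]
  congr 1
  field_simp
  ring

theorem IsJ.dub_curlCup (J : IsJ H q A h r) (D₁ D₂ : List (Piece Unit)) (i : ℕ) (o : Bool)
    (hD : IsDiagram (D₁ ++ [cup i (), cr i o] ++ D₂)) :
    dub H r h (D₁ ++ [cup i (), cr i o] ++ D₂) =
      (if o then (A ^ 2 / q)⁻¹ else A ^ 2 / q) * dub H r h (D₁ ++ [cup i ()] ++ D₂) := by
  obtain ⟨s, t, h1, h2⟩ := valid_of hD
  obtain ⟨h3, -⟩ := run_split h2
  simp only [pos, inn] at h3
  have hm : actL r h D₁ (H.vec []) ∈ T H i [] := by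
    refine H.M_mono ?_ (vec_M (r := r) (h := h) h1)
    intro u hu
    exact ⟨u.take i, u.drop i, by simp; omega, by simp⟩
  rw [dub_mid, dub_mid]
  have hq := J.hq
  have hA := J.hA
  have e : actL r h [cup i (), cr i o] (actL r h D₁ (H.vec [])) =
      (if o then (A ^ 2 / q)⁻¹ else A ^ 2 / q) •
        actL r h [cup i ()] (actL r h D₁ (H.vec [])) := by
    cases o
    · have := J.curlCupF i hm
      have e2 : r⁻¹ * A = A ^ 2 / q := by rw [J.hr]; field_simp
      rw [e2] at this
      exact this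
    · have := J.curlCupT i hm
      have e2 : r * A⁻¹ = (A ^ 2 / q)⁻¹ := by rw [J.hr]; field_simp
      rw [e2] at this
      exact this
  rw [e, map_smul]
  rfl

theorem IsJ.dub_curlCap (J : IsJ H q A h r) (D₁ D₂ : List (Piece Unit)) (i : ℕ) (o : Bool)
    (hD : IsDiagram (D₁ ++ [cr i o, cap i] ++ D₂)) :
    dub H r h (D₁ ++ [cr i o, cap i] ++ D₂) =
      (if o then (A ^ 2 / q)⁻¹ else A ^ 2 / q) * dub H r h (D₁ ++ [cap i] ++ D₂) := by
  obtain ⟨s, t, h1, h2⟩ := valid_of hD
  obtain ⟨h3, -⟩ := run_split h2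
  simp only [pos, inn] at h3
  have hm : actL r h D₁ (H.vec []) ∈ H.M (fun s => i + 2 ≤ s.length) :=
    H.M_mono (fun u hu => by omega) (vec_M (r := r) (h := h) h1)
  rw [dub_mid, dub_mid]
  have hq := J.hq
  have hA := J.hA
  have e : actL r h [cr i o, cap i] (actL r h D₁ (H.vec [])) =
      (if o then (A ^ 2 / q)⁻¹ else A ^ 2 / q) •
        actL r h [cap i] (actL r h D₁ (H.vec [])) := by
    cases o
    · have := J.curlCapF i hm
      have e2 : r⁻¹ * A = A ^ 2 / q := by rw [J.hr]; field_simp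
      rw [e2] at this
      exact this
    · have := J.curlCapT i hm
      have e2 : r * A⁻¹ = (A ^ 2 / q)⁻¹ := by rw [J.hr]; field_simp
      rw [e2] at this
      exact this
  rw [e, map_smul]
  rfl

theorem IsJ.dub_skein (J : IsJ H q A h r) (D₁ D₂ : List (Piece Unit)) (i : ℕ)
    (hD : IsDiagram (D₁ ++ [cr i true] ++ D₂)) :
    dub H r h (D₁ ++ [cr i true] ++ D₂) - dub H r h (D₁ ++ [cr i false] ++ D₂) =
      h * (dub H r h (D₁ ++ D₂) - dub H r h (D₁ ++ [cap i, cup i ()] ++ D₂)) := by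
  obtain ⟨s, t, h1, h2⟩ := valid_of hD
  obtain ⟨h3, -⟩ := run_split h2
  simp only [pos, inn] at h3
  have hm : actL r h D₁ (H.vec []) ∈ H.M (fun s => i + 2 ≤ s.length) :=
    H.M_mono (fun u hu => by omega) (vec_M (r := r) (h := h) h1)
  have e0 : D₁ ++ D₂ = D₁ ++ [] ++ D₂ := by simp
  rw [e0, dub_mid, dub_mid, dub_mid, dub_mid]
  have e := J.skeinU i hm
  have e1 := congrArg (fun ψ => actL r h D₂ ψ []) e
  simp only [map_sub, map_smul, Pi.sub_apply, Pi.smul_apply, smul_eq_mul] at e1
  exact e1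

/-- **Jaeger's formula.** A framed oriented HOMFLY functional gives a Dubrovnik functional. -/
theorem exists_dubrovnik (H : Skein Bool K) (q A h : K) (hq : q ≠ 0) (hA : A ≠ 0)
    (hh : h = q - q⁻¹) (h0 : h ≠ 0) (kT : H.kap true = A⁻¹) (kF : H.kap false = A)
    (al : ∀ a b o, H.al a b o = 1)
    (be : ∀ a b o, H.be a b o = if a = b then (if o then h else -h) else 0)
    (ga : ∀ a b o, H.ga a b o = if b = !a then (if o then -h else h) else 0)
    (de : H.de = (A - A⁻¹) / h) (hf : H.f [] = 1) :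
    ∃ f : List (Piece Unit) → K,
      (∀ D D', StepBy RegMove D D' → f D = f D') ∧
      f [] = 1 ∧
      (∀ D, run D [] ≠ some [] → f D = 0) ∧
      f [cup 0 (), cap 0] = (A ^ 2 / q - (A ^ 2 / q)⁻¹) / h + 1 ∧
      (∀ (D₁ D₂ : List (Piece Unit)) (i : ℕ) (o : Bool),
        IsDiagram (D₁ ++ [cup i (), cr i o] ++ D₂) →
        f (D₁ ++ [cup i (), cr i o] ++ D₂) =
          (if o then (A ^ 2 / q)⁻¹ else A ^ 2 / q) * f (D₁ ++ [cup i ()] ++ D₂)) ∧
      (∀ (D₁ D₂ : List (Piece Unit)) (i : ℕ) (o : Bool),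
        IsDiagram (D₁ ++ [cr i o, cap i] ++ D₂) →
        f (D₁ ++ [cr i o, cap i] ++ D₂) =
          (if o then (A ^ 2 / q)⁻¹ else A ^ 2 / q) * f (D₁ ++ [cap i] ++ D₂)) ∧
      (∀ (D₁ D₂ : List (Piece Unit)) (i : ℕ),
        IsDiagram (D₁ ++ [cr i true] ++ D₂) →
        f (D₁ ++ [cr i true] ++ D₂) - f (D₁ ++ [cr i false] ++ D₂) =
          h * (f (D₁ ++ D₂) - f (D₁ ++ [cap i, cup i ()] ++ D₂))) := by
  have J : IsJ H q A h (q / A) := ⟨hq, hA, hh, h0, rfl, kT, kF, al, be, ga, de⟩
  exact ⟨dub H (q / A) h, fun D D' => J.dub_reg, dub_nil hf, fun D => dub_zero,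
    J.dub_circle hf, J.dub_curlCup, J.dub_curlCap, J.dub_skein⟩

end Pool.Agent.Helper54.Dub
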