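import Pool.Agent.Helper26.WD.Rep

/-!
# Local directions of strands
-/

namespace Pool.Agent.Helper54.Dub

open Pool.Agent.Helper26.WD Piece Skein

variable {K : Type} [CommRing K]

/-- The span of the vectors of partial diagrams with the local directions `l` at the position
`i`. -/
def T (H : Skein Bool K) (i : ℕ) (l : List Bool) : Submodule K (E Bool K) :=
  H.M (fun s => ∃ s₁ s₂, s₁.length = i ∧ s = s₁ ++ (l ++ s₂))

theorem T_op (H : Skein Bool K) {i i' : ℕ} {l l' : List Bool} (p : Piece Bool)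
    (h : ∀ s₁ s₂ t, s₁.length = i → step p (s₁ ++ (l ++ s₂)) = some t →
      ∃ s₁' s₂', s₁'.length = i' ∧ t = s₁' ++ (l' ++ s₂')) {φ : E Bool K} (hφ : φ ∈ T H i l) :
    op K p φ ∈ T H i' l' := by
  refine H.op_mem p ?_ hφ
  rintro s ⟨s₁, s₂, h1, rfl⟩ t ht
  exact h s₁ s₂ t h1 ht

variable {H : Skein Bool K} {φ : E Bool K} {i : ℕ} {a b c : Bool} {l : List Bool}

theorem T_V (h : φ ∈ T H i l) : φ ∈ H.V := H.mem_V h

theorem T_cr (o : Bool) (h : φ ∈ T H i (a :: b :: l)) : op K (cr i o) φ ∈ T H i (b :: a :: l) := by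
  refine T_op H _ ?_ h
  rintro s₁ s₂ t rfl ht
  simp [step] at ht
  exact ⟨s₁, s₂, rfl, by rw [← ht]; simp⟩

theorem T_cr1 (o : Bool) (h : φ ∈ T H i (a :: b :: c :: l)) :
    op K (cr (i + 1) o) φ ∈ T H i (a :: c :: b :: l) := by
  refine T_op H _ ?_ h
  rintro s₁ s₂ t rfl ht
  have e : s₁ ++ (a :: b :: c :: l ++ s₂) = (s₁ ++ [a]) ++ (b :: c :: (l ++ s₂)) := by simp
  have e1 : s₁.length + 1 = (s₁ ++ [a]).length := by simp
  rw [e, e1] at ht
  simp only [step, List.drop_left, List.take_left, Option.some.injEq] at ht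
  exact ⟨s₁, s₂, rfl, by rw [← ht]; simp⟩

theorem T_cup (h : φ ∈ T H i l) : op K (cup i a) φ ∈ T H i (a :: (!a) :: l) := by
  refine T_op H _ ?_ h
  rintro s₁ s₂ t rfl ht
  simp only [step, List.drop_left, List.take_left] at ht
  split_ifs at ht
  rw [Option.some.injEq] at ht
  exact ⟨s₁, s₂, rfl, by rw [← ht]; rfl⟩

theorem T_cup1 (h : φ ∈ T H i (c :: l)) :
    op K (cup (i + 1) a) φ ∈ T H i (c :: a :: (!a) :: l) := by
  refine T_op H _ ?_ h
  rintro s₁ s₂ t rfl ht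
  have e : s₁ ++ (c :: l ++ s₂) = (s₁ ++ [c]) ++ (l ++ s₂) := by simp
  have e1 : s₁.length + 1 = (s₁ ++ [c]).length := by simp
  rw [e, e1] at ht
  simp only [step, List.drop_left, List.take_left] at ht
  split_ifs at ht
  rw [Option.some.injEq] at ht
  exact ⟨s₁, s₂, rfl, by rw [← ht]; simp [Dir.op]⟩

theorem T_cup2 {d : Bool} (h : φ ∈ T H i (c :: d :: l)) :
    op K (cup (i + 2) a) φ ∈ T H i (c :: d :: a :: (!a) :: l) := by
  refine T_op H _ ?_ h
  rintro s₁ s₂ t rfl ht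
  have e : s₁ ++ (c :: d :: l ++ s₂) = (s₁ ++ [c, d]) ++ (l ++ s₂) := by simp
  have e1 : s₁.length + 2 = (s₁ ++ [c, d]).length := by simp
  rw [e, e1] at ht
  simp only [step, List.drop_left, List.take_left] at ht
  split_ifs at ht
  rw [Option.some.injEq] at ht
  exact ⟨s₁, s₂, rfl, by rw [← ht]; simp [Dir.op]⟩

theorem T_cap (h : φ ∈ T H i (a :: b :: l)) : op K (cap i) φ ∈ T H i l := by
  refine T_op H _ ?_ h
  rintro s₁ s₂ t rfl ht
  simp only [step, List.drop_left, List.take_left, List.cons_append] at ht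
  split_ifs at ht
  rw [Option.some.injEq] at ht
  exact ⟨s₁, s₂, rfl, ht.symm⟩

theorem T_cap1 (h : φ ∈ T H i (c :: a :: b :: l)) : op K (cap (i + 1)) φ ∈ T H i (c :: l) := by
  refine T_op H _ ?_ h
  rintro s₁ s₂ t rfl ht
  have e : s₁ ++ (c :: a :: b :: l ++ s₂) = (s₁ ++ [c]) ++ (a :: b :: (l ++ s₂)) := by simp
  have e1 : s₁.length + 1 = (s₁ ++ [c]).length := by simp
  rw [e, e1] at ht
  simp only [step, List.drop_left, List.take_left] at ht
  split_ifs at ht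
  rw [Option.some.injEq] at ht
  exact ⟨s₁, s₂, rfl, by rw [← ht]; simp⟩

theorem T_succ (h : φ ∈ T H i (a :: l)) : φ ∈ T H (i + 1) l := by
  refine H.M_mono ?_ h
  rintro s ⟨s₁, s₂, h1, rfl⟩
  exact ⟨s₁ ++ [a], s₂, by simp [h1], by simp⟩

theorem T_take {l' : List Bool} (h : φ ∈ T H i (l ++ l')) : φ ∈ T H i l := by
  refine H.M_mono ?_ h
  rintro s ⟨s₁, s₂, h1, rfl⟩
  exact ⟨s₁, l' ++ s₂, h1, by simp⟩

theorem T_get (h : φ ∈ T H i (a :: l)) : φ ∈ H.M (fun s => s[i]? = some a) := by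
  refine H.M_mono ?_ h
  rintro s ⟨s₁, s₂, h1, rfl⟩
  subst h1
  simp

theorem T_get2 (h : φ ∈ T H i (a :: b :: l)) :
    φ ∈ H.M (fun s => s[i]? = some a ∧ s[i + 1]? = some b) := by
  refine H.M_mono ?_ h
  rintro s ⟨s₁, s₂, h1, rfl⟩
  subst h1
  simp

theorem T_len (h : φ ∈ T H i (a :: b :: l)) : φ ∈ H.M (fun s => i + 2 ≤ s.length) := by
  refine H.M_mono ?_ h
  rintro s ⟨s₁, s₂, h1, rfl⟩
  subst h1
  simp

/-- Zigzags. -/
theorem zR (h : φ ∈ T H i (a :: l)) : op K (cap (i + 1)) (op K (cup i a) φ) = φ :=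
  H.zigR i a (T_get h)

theorem zL (h : φ ∈ T H i ((!a) :: l)) : op K (cap i) (op K (cup (i + 1) a) φ) = φ :=
  H.zigL i a (T_get h)

theorem zL_zero (h : φ ∈ T H i (a :: l)) : op K (cap i) (op K (cup (i + 1) a) φ) = 0 := by
  refine (H.ext_M ((op K (cap i)) ∘ₗ (op K (cup (i + 1) a))) 0 ?_ h)
  rintro D s h1 ⟨s₁, s₂, h2, rfl⟩
  simp only [LinearMap.comp_apply, LinearMap.zero_apply]
  rw [← vec_append_singleton, ← vec_append_singleton, vec_eq_zero]
  rw [List.append_assoc, run_append, h1, Option.bind_some]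
  subst h2
  have e : s₁ ++ (a :: l ++ s₂) = (s₁ ++ [a]) ++ (l ++ s₂) := by simp
  have e1 : s₁.length + 1 = (s₁ ++ [a]).length := by simp
  rw [e, e1]
  have e2 : step (cup (s₁ ++ [a]).length a) ((s₁ ++ [a]) ++ (l ++ s₂)) =
      some (s₁ ++ (a :: a :: (!a) :: (l ++ s₂))) := by
    simp only [step, List.drop_left, List.take_left, Dir.op]
    simp
  have e3 : step (cap s₁.length) (s₁ ++ (a :: a :: (!a) :: (l ++ s₂))) = none := by
    simp only [step, List.drop_left]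
    rw [if_neg]
    simp [Dir.op]
  have e0 := run_pair (cup (s₁ ++ [a]).length a) (cap s₁.length) ((s₁ ++ [a]) ++ (l ++ s₂))
  rw [e2, Option.bind_some, e3] at e0
  exact e0

theorem r2T (o : Bool) (h : φ ∈ T H i (a :: b :: l)) :
    op K (cr i (!o)) (op K (cr i o) φ) = φ :=
  H.r2 (n := i + 2) i o (by omega) (T_len h)

/-- Equality of linear maps on diagrams with at least `i + 2` strands. -/
theorem ext2 (L₁ L₂ : E Bool K →ₗ[K] E Bool K)
    (h : ∀ a b, ∀ φ ∈ T H i [a, b], L₁ φ = L₂ φ) {φ : E Bool K}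
    (hφ : φ ∈ H.M (fun s => i + 2 ≤ s.length)) : L₁ φ = L₂ φ := by
  refine H.ext_M L₁ L₂ (fun D s h1 h2 => ?_) hφ
  have hi : i + 1 < s.length := by omega
  refine h s[i] s[i + 1] _ (H.vec_mem h1 ⟨s.take i, s.drop (i + 2), by simp; omega, ?_⟩)
  simp

theorem ext3 (L₁ L₂ : E Bool K →ₗ[K] E Bool K)
    (h : ∀ a b c, ∀ φ ∈ T H i [a, b, c], L₁ φ = L₂ φ) {φ : E Bool K}
    (hφ : φ ∈ H.M (fun s => i + 3 ≤ s.length)) : L₁ φ = L₂ φ := by
  refine H.ext_M L₁ L₂ (fun D s h1 h2 => ?_) hφ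
  have hi : i + 2 < s.length := by omega
  refine h s[i] s[i + 1] s[i + 2] _
    (H.vec_mem h1 ⟨s.take i, s.drop (i + 3), by simp; omega, ?_⟩)
  simp

theorem ext1 (L₁ L₂ : E Bool K →ₗ[K] E Bool K)
    (h : ∀ a, ∀ φ ∈ T H i [a], L₁ φ = L₂ φ) {φ : E Bool K}
    (hφ : φ ∈ H.M (fun s => i + 1 ≤ s.length)) : L₁ φ = L₂ φ := by
  refine H.ext_M L₁ L₂ (fun D s h1 h2 => ?_) hφ
  have hi : i < s.length := by omega
  refine h s[i] _ (H.vec_mem h1 ⟨s.take i, s.drop (i + 1), by simp; omega, ?_⟩)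
  simp

end Pool.Agent.Helper54.Dub
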