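import Pool.Agent.Helper54.Dub.Ops

/-!
# Relations between the operators of unoriented pieces
-/

namespace Pool.Agent.Helper54.Dub

open Pool.Agent.Helper26.WD Piece Skein

variable {K : Type} [Field K] {H : Skein Bool K} {q A h r : K}

theorem circ_cap (a : Bool) {i : ℕ} {φ : E Bool K} (h1 : φ ∈ H.M (fun s => i + 2 ≤ s.length)) :
    op K (cap i) (op K (cup i a) (op K (cap i) φ)) = H.de • op K (cap i) φ := by
  have hV := H.mem_V h1
  have e1 : op K (cup i a) (op K (cap i) φ) = op K (cap i) (op K (cup (i + 2) a) φ) :=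
    H.far (cap i) (cup i a) le_rfl hV
  have e2 : op K (cap i) (op K (cap i) (op K (cup (i + 2) a) φ)) =
      op K (cap i) (op K (cap (i + 2)) (op K (cup (i + 2) a) φ)) :=
    H.far (cap i) (cap i) le_rfl (H.op_mem_V _ hV)
  rw [e1, e2, H.circ (i + 2) a, map_smul]
  refine H.M_mono ?_ h1
  intro s hs
  refine ⟨hs, ?_⟩
  rintro rfl
  simp at hs

namespace IsJ

variable (J : IsJ H q A h r)

include J

/-! ### The skein relation -/

theorem skeinU (i : ℕ) {φ : E Bool K} (hφ : φ ∈ H.M (fun s => i + 2 ≤ s.length)) :
    act r h (cr i true) φ - act r h (cr i false) φ =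
      h • (φ - act r h (cup i ()) (act r h (cap i) φ)) := by
  refine ext2 (H := H) (i := i) (act r h (cr i true) - act r h (cr i false))
    (h • (LinearMap.id - act r h (cup i ()) ∘ₗ act r h (cap i))) ?_ hφ
  intro a b φ h1
  simp only [LinearMap.sub_apply, LinearMap.smul_apply, LinearMap.id_apply, LinearMap.comp_apply]
  cases a <;> cases b
  · rw [act_crT_dd h1, act_crF_dd h1, act_cap_false h1, cap_eq h1, J.sk_same h1]
    simp
  · rw [act_crT_uu h1, act_crF_du h1, act_cap_false h1, map_smul, act_cup, J.sk_diff h1]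
    have := J.r0
    simp only [Bool.not_false]
    match_scalars <;> first | (field_simp; ring) | field_simp
  · rw [act_crT_ud h1, act_crF_uu h1, act_cap_true h1, act_cup, J.sk_diff h1]
    simp only [Bool.not_true]
    module
  · rw [act_crT_uu h1, act_crF_uu h1, act_cap_true h1, cap_eq h1, J.sk_same h1]
    simp

/-! ### Curls -/

theorem curlCupT (i : ℕ) {φ : E Bool K} (hφ : φ ∈ T H i []) :
    act r h (cr i true) (act r h (cup i ()) φ) = (r * A⁻¹) • act r h (cup i ()) φ := by
  have hV := T_V hφ
  have hu : op K (cup i true) φ ∈ T H i [true, false] := T_cup hφ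
  have hd : op K (cup i false) φ ∈ T H i [false, true] := T_cup hφ
  rw [act_cup, map_add, map_smul, act_crT_ud hu, act_crT_dd hd, J.kcupT hV, J.kcupT hV,
    H.circle_cup i true true hV]
  have k := J.key
  have d := J.deh
  simp only [Bool.not_true, Bool.not_false]
  linear_combination (norm := module) (-(r * r * d) - k) • op K (cup i true) φ

theorem curlCupF (i : ℕ) {φ : E Bool K} (hφ : φ ∈ T H i []) :
    act r h (cr i false) (act r h (cup i ()) φ) = (r⁻¹ * A) • act r h (cup i ()) φ := by
  have hV := T_V hφ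
  have hu : op K (cup i true) φ ∈ T H i [true, false] := T_cup hφ
  have hd : op K (cup i false) φ ∈ T H i [false, true] := T_cup hφ
  rw [act_cup, map_add, map_smul, act_crF_uu hu, act_crF_du hd, J.kcupF hV, J.kcupF hV,
    H.circle_cup i false false hV]
  have k := J.key'
  have d := J.deh
  have hr := J.r0
  have e1 : r⁻¹ * r = 1 := inv_mul_cancel₀ hr
  have e2 : r * A - h - r⁻¹ * A⁻¹ = 0 := by
    have := J.key
    have hA := J.hA
    field_simp at this ⊢
    linear_combination this
  simp only [Bool.not_true, Bool.not_false]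
  linear_combination (norm := module) (r⁻¹ * d + e2) • op K (cup i false) φ
    - (A * e1) • op K (cup i true) φ

theorem curlCapT (i : ℕ) {φ : E Bool K} (hφ : φ ∈ H.M (fun s => i + 2 ≤ s.length)) :
    act r h (cap i) (act r h (cr i true) φ) = (r * A⁻¹) • act r h (cap i) φ := by
  refine ext2 (H := H) (i := i) (act r h (cap i) ∘ₗ act r h (cr i true))
    ((r * A⁻¹) • (act r h (cap i))) ?_ hφ
  intro a b φ h1
  simp only [LinearMap.smul_apply, LinearMap.comp_apply]
  have hV := T_V h1
  have k := J.key
  have d := J.deh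
  have hr := J.r0
  have hA := J.hA
  have hX : op K (cr i true) φ ∈ T H i [b, a] := T_cr true h1
  cases a <;> cases b
  · rw [act_crT_dd h1, act_cap_false hX, cap_eq hX, act_cap_false h1, cap_eq h1]
    simp
  · rw [act_crT_uu h1, act_cap_true hX, J.kcapT hV, act_cap_false h1]
    match_scalars
    field_simp
  · have hE : op K (cup i true) (op K (cap i) φ) ∈ T H i [true, false] := T_cup (T_cap h1)
    rw [act_crT_ud h1, map_sub, map_add, map_smul, map_smul, act_cap_false hX, act_cap_true h1,
      act_cap_true hE, J.kcapT hV, circ_cap true (T_len h1)]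
    have e2 : r⁻¹ * A⁻¹ + h - r * A = 0 := by
      have := J.key
      field_simp at this ⊢
      linear_combination -this
    linear_combination (norm := module) (-(r * d) + e2) • op K (cap i) φ
  · rw [act_crT_uu h1, act_cap_true hX, cap_eq hX, act_cap_true h1, cap_eq h1]
    simp

theorem curlCapF (i : ℕ) {φ : E Bool K} (hφ : φ ∈ H.M (fun s => i + 2 ≤ s.length)) :
    act r h (cap i) (act r h (cr i false) φ) = (r⁻¹ * A) • act r h (cap i) φ := by
  refine ext2 (H := H) (i := i) (act r h (cap i) ∘ₗ act r h (cr i false))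
    ((r⁻¹ * A) • (act r h (cap i))) ?_ hφ
  intro a b φ h1
  simp only [LinearMap.smul_apply, LinearMap.comp_apply]
  have hV := T_V h1
  have k := J.key'
  have d := J.deh
  have hr := J.r0
  have hA := J.hA
  have hX : op K (cr i false) φ ∈ T H i [b, a] := T_cr false h1
  cases a <;> cases b
  · rw [act_crF_dd h1, act_cap_false hX, cap_eq hX, act_cap_false h1, cap_eq h1]
    simp
  · have hE : op K (cup i false) (op K (cap i) φ) ∈ T H i [false, true] := T_cup (T_cap h1)
    rw [act_crF_du h1, map_add, map_sub, map_smul, map_smul, act_cap_true hX, act_cap_false h1,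
      act_cap_false hE, J.kcapF hV, circ_cap false (T_len h1)]
    linear_combination (norm := module) (r⁻¹ * r⁻¹ * d + k) • op K (cap i) φ
  · rw [act_crF_uu h1, act_cap_false hX, J.kcapF hV, act_cap_true h1]
    module
  · rw [act_crF_uu h1, act_cap_true hX, cap_eq hX, act_cap_true h1, cap_eq h1]
    simp

/-! ### The second Reidemeister move -/

theorem r2UF (i : ℕ) {φ : E Bool K} (hφ : φ ∈ H.M (fun s => i + 2 ≤ s.length)) :
    act r h (cr i false) (act r h (cr i true) φ) = φ := by
  refine ext2 (H := H) (i := i) (act r h (cr i false) ∘ₗ act r h (cr i true)) LinearMap.id ?_ hφ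
  intro a b φ h1
  simp only [LinearMap.id_apply, LinearMap.comp_apply]
  have hV := T_V h1
  have hX : op K (cr i true) φ ∈ T H i [b, a] := T_cr true h1
  cases a <;> cases b
  · rw [act_crT_dd h1, act_crF_dd hX]
    exact r2T true h1
  · rw [act_crT_uu h1, act_crF_uu hX]
    exact r2T true h1
  · have hE : op K (cup i true) (op K (cap i) φ) ∈ T H i [true, false] := T_cup (T_cap h1)
    have e0 : op K (cr i false) (op K (cr i true) φ) = φ := r2T true h1
    rw [act_crT_ud h1, map_sub, map_add, map_smul, map_smul, act_crF_du hX, act_crF_uu h1,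
      act_crF_uu hE, e0, J.kcapT hV, J.kcupF (H.op_mem_V _ hV)]
    have e1 := J.sk_diff h1
    have e2 := J.rA
    have e3 : r⁻¹ * A⁻¹ = q⁻¹ := by rw [← e2, mul_inv]
    simp only [Bool.not_true, map_smul] at e1 ⊢
    rw [e1]
    have e4 : h - r * A + r⁻¹ * A⁻¹ = 0 := by rw [e3, e2, J.hh]; ring
    linear_combination (norm := module) (h * e4) • op K (cup i false) (op K (cap i) φ)
  · rw [act_crT_uu h1, act_crF_uu hX]
    exact r2T true h1

theorem r2UT (i : ℕ) {φ : E Bool K} (hφ : φ ∈ H.M (fun s => i + 2 ≤ s.length)) :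
    act r h (cr i true) (act r h (cr i false) φ) = φ := by
  refine ext2 (H := H) (i := i) (act r h (cr i true) ∘ₗ act r h (cr i false)) LinearMap.id ?_ hφ
  intro a b φ h1
  simp only [LinearMap.id_apply, LinearMap.comp_apply]
  have hV := T_V h1
  have hX : op K (cr i false) φ ∈ T H i [b, a] := T_cr false h1
  cases a <;> cases b
  · rw [act_crF_dd h1, act_crT_dd hX]
    exact r2T false h1
  · have hE : op K (cup i false) (op K (cap i) φ) ∈ T H i [false, true] := T_cup (T_cap h1)
    have e0 : op K (cr i true) (op K (cr i false) φ) = φ := r2T false h1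
    rw [act_crF_du h1, map_add, map_sub, map_smul, map_smul, act_crT_ud hX, act_crT_dd h1,
      act_crT_dd hE, e0, J.kcapF hV, J.kcupT (H.op_mem_V _ hV)]
    have e1 := J.sk_diff h1
    have e2 := J.rA
    have e3 : r⁻¹ * A⁻¹ = q⁻¹ := by rw [← e2, mul_inv]
    simp only [Bool.not_false, map_smul] at e1 ⊢
    rw [e1]
    have e4 : h - r * A + r⁻¹ * A⁻¹ = 0 := by rw [e3, e2, J.hh]; ring
    linear_combination (norm := module) (h * e4) • op K (cup i true) (op K (cap i) φ)
  · rw [act_crF_uu h1, act_crT_dd hX]
    exact r2T false h1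
  · rw [act_crF_uu h1, act_crT_uu hX]
    exact r2T false h1

/-! ### Zigzags -/

omit J in
theorem T_one (hr : r ≠ 0) (i : ℕ) {φ : E Bool K} (hφ : φ ∈ H.M (fun s => i + 1 ≤ s.length)) :
    act r h (cap (i + 1)) (act r h (cup i ()) φ) = φ := by
  refine ext1 (H := H) (i := i) (act r h (cap (i + 1)) ∘ₗ act r h (cup i ())) LinearMap.id ?_ hφ
  intro a φ h1
  simp only [LinearMap.id_apply, LinearMap.comp_apply]
  have hu : op K (cup i true) φ ∈ T H i [true, false, a] := T_cup h1
  have hd : op K (cup i false) φ ∈ T H i [false, true, a] := T_cup h1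
  rw [act_cup, map_add, map_smul, act_cap_false (T_succ hu), act_cap_true (T_succ hd)]
  cases a
  · rw [zR h1, cap_eq (T_succ hu)]
    simp
  · rw [zR h1, cap_eq (T_succ hd), smul_smul, mul_inv_cancel₀ hr]
    simp

omit J in
theorem T_two (hr : r ≠ 0) (i : ℕ) {φ : E Bool K} (hφ : φ ∈ H.M (fun s => i + 1 ≤ s.length)) :
    act r h (cap i) (act r h (cup (i + 1) ()) φ) = φ := by
  refine ext1 (H := H) (i := i) (act r h (cap i) ∘ₗ act r h (cup (i + 1) ())) LinearMap.id ?_ hφ
  intro a φ h1
  simp only [LinearMap.id_apply, LinearMap.comp_apply]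
  have hu : op K (cup (i + 1) true) φ ∈ T H i [a, true, false] := T_cup1 h1
  have hd : op K (cup (i + 1) false) φ ∈ T H i [a, false, true] := T_cup1 h1
  rw [act_cup, map_add, map_smul]
  cases a
  · rw [act_cap_false hu, act_cap_false hd, cap_eq hd, zL (a := true) h1, smul_smul,
      mul_inv_cancel₀ hr]
    simp
  · rw [act_cap_true hu, act_cap_true hd, cap_eq hu, zL (a := false) h1]
    simp

/-! ### Slides -/

theorem slideCupT (i : ℕ) {φ : E Bool K} (hφ : φ ∈ H.M (fun s => i + 1 ≤ s.length)) :
    act r h (cr (i + 1) true) (act r h (cup i ()) φ) =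
      act r h (cr i false) (act r h (cup (i + 1) ()) φ) := by
  refine ext1 (H := H) (i := i) (act r h (cr (i + 1) true) ∘ₗ act r h (cup i ()))
    (act r h (cr i false) ∘ₗ act r h (cup (i + 1) ())) ?_ hφ
  intro a φ h1
  simp only [LinearMap.comp_apply]
  have hV := T_V h1
  have hr := J.r0
  have hu : op K (cup i true) φ ∈ T H i [true, false, a] := T_cup h1
  have hd : op K (cup i false) φ ∈ T H i [false, true, a] := T_cup h1
  have hu1 : op K (cup (i + 1) true) φ ∈ T H i [a, true, false] := T_cup1 h1
  have hd1 : op K (cup (i + 1) false) φ ∈ T H i [a, false, true] := T_cup1 h1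
  have s1 := H.slideCup i true true hV
  have s2 := H.slideCup i false true hV
  rw [act_cup, act_cup, map_add, map_smul, map_add, map_smul]
  simp only [Bool.not_true] at s1 s2
  cases a
  · rw [act_crT_dd (T_succ hu), act_crT_ud (T_succ hd), act_crF_du hu1, act_crF_dd hd1, s1, s2,
      zR h1, zL (a := true) h1]
    match_scalars <;> field_simp
  · rw [act_crT_dd (T_succ hu), act_crT_uu (T_succ hd), act_crF_uu hu1, act_crF_uu hd1, s1, s2]

theorem slideCupF (i : ℕ) {φ : E Bool K} (hφ : φ ∈ H.M (fun s => i + 1 ≤ s.length)) :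
    act r h (cr (i + 1) false) (act r h (cup i ()) φ) =
      act r h (cr i true) (act r h (cup (i + 1) ()) φ) := by
  refine ext1 (H := H) (i := i) (act r h (cr (i + 1) false) ∘ₗ act r h (cup i ()))
    (act r h (cr i true) ∘ₗ act r h (cup (i + 1) ())) ?_ hφ
  intro a φ h1
  simp only [LinearMap.comp_apply]
  have hV := T_V h1
  have hr := J.r0
  have hu : op K (cup i true) φ ∈ T H i [true, false, a] := T_cup h1
  have hd : op K (cup i false) φ ∈ T H i [false, true, a] := T_cup h1
  have hu1 : op K (cup (i + 1) true) φ ∈ T H i [a, true, false] := T_cup1 h1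
  have hd1 : op K (cup (i + 1) false) φ ∈ T H i [a, false, true] := T_cup1 h1
  have s1 := H.slideCup i true false hV
  have s2 := H.slideCup i false false hV
  rw [act_cup, act_cup, map_add, map_smul, map_add, map_smul]
  simp only [Bool.not_false] at s1 s2
  cases a
  · rw [act_crF_dd (T_succ hu), act_crF_uu (T_succ hd), act_crT_uu hu1, act_crT_dd hd1, s1, s2]
  · rw [act_crF_du (T_succ hu), act_crF_uu (T_succ hd), act_crT_uu hu1, act_crT_ud hd1, s1, s2,
      zR h1, zL (a := false) h1]
    match_scalars <;> field_simp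

theorem slideCapT (i : ℕ) {φ : E Bool K} (hφ : φ ∈ H.M (fun s => i + 3 ≤ s.length)) :
    act r h (cap (i + 1)) (act r h (cr i true) φ) =
      act r h (cap i) (act r h (cr (i + 1) false) φ) := by
  refine ext3 (H := H) (i := i) (act r h (cap (i + 1)) ∘ₗ act r h (cr i true))
    (act r h (cap i) ∘ₗ act r h (cr (i + 1) false)) ?_ hφ
  intro a b c φ h1
  simp only [LinearMap.comp_apply]
  have hV := T_V h1
  have hr := J.r0
  have hX : op K (cr i true) φ ∈ T H i [b, a, c] := T_cr true h1
  have hY : op K (cr (i + 1) false) φ ∈ T H i [a, c, b] := T_cr1 false h1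
  have s1 := H.slideCap i true hV
  simp only [Bool.not_true] at s1
  have hcap : op K (cap i) φ ∈ T H i [c] := T_cap h1
  have hcap1 : op K (cap (i + 1)) φ ∈ T H i [a] := T_cap1 h1
  have hE : op K (cup i true) (op K (cap i) φ) ∈ T H i [true, false, c] := T_cup hcap
  have hE1 : op K (cup (i + 1) false) (op K (cap (i + 1)) φ) ∈ T H i [a, false, true] :=
    T_cup1 hcap1
  cases a
  · -- `a = false`
    rw [act_crT_dd h1, act_cap_false (T_succ hX), s1]
    cases b <;> cases c
    · rw [act_crF_dd (T_succ h1), act_cap_false hY]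
    · rw [act_crF_du (T_succ h1), map_add, map_sub, map_smul, map_smul, act_cap_false hY,
        act_cap_false h1, cap_eq h1, act_cap_false hE1, cap_eq hE1]
      simp
    · rw [act_crF_uu (T_succ h1), act_cap_false hY]
    · rw [act_crF_uu (T_succ h1), act_cap_false hY]
  · cases b <;> cases c
    · rw [act_crT_ud h1, act_crF_dd (T_succ h1), map_sub, map_add, map_smul, map_smul,
        act_cap_true (T_succ hX), s1, act_cap_false (T_succ h1), cap_eq (T_succ h1),
        act_cap_false (T_succ hE), cap_eq (T_succ hE), act_cap_true hY]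
      simp
    · rw [act_crT_ud h1, act_crF_du (T_succ h1), map_sub, map_add, map_smul, map_smul,
        act_cap_true (T_succ hX), s1, act_cap_false (T_succ h1), act_cap_false (T_succ hE),
        map_add, map_sub, map_smul, map_smul, act_cap_true hY, act_cap_true h1,
        act_cap_true hE1, zR hcap, zL (a := false) hcap1]
      match_scalars <;> field_simp
    · rw [act_crT_uu h1, act_crF_uu (T_succ h1), act_cap_true (T_succ hX), s1, act_cap_true hY]
    · rw [act_crT_uu h1, act_crF_uu (T_succ h1), act_cap_true (T_succ hX), s1, act_cap_true hY]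

theorem slideCapF (i : ℕ) {φ : E Bool K} (hφ : φ ∈ H.M (fun s => i + 3 ≤ s.length)) :
    act r h (cap (i + 1)) (act r h (cr i false) φ) =
      act r h (cap i) (act r h (cr (i + 1) true) φ) := by
  refine ext3 (H := H) (i := i) (act r h (cap (i + 1)) ∘ₗ act r h (cr i false))
    (act r h (cap i) ∘ₗ act r h (cr (i + 1) true)) ?_ hφ
  intro a b c φ h1
  simp only [LinearMap.comp_apply]
  have hV := T_V h1
  have hr := J.r0
  have hX : op K (cr i false) φ ∈ T H i [b, a, c] := T_cr false h1
  have hY : op K (cr (i + 1) true) φ ∈ T H i [a, c, b] := T_cr1 true h1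
  have s1 := H.slideCap i false hV
  simp only [Bool.not_false] at s1
  have hcap : op K (cap i) φ ∈ T H i [c] := T_cap h1
  have hcap1 : op K (cap (i + 1)) φ ∈ T H i [a] := T_cap1 h1
  have hE : op K (cup i false) (op K (cap i) φ) ∈ T H i [false, true, c] := T_cup hcap
  have hE1 : op K (cup (i + 1) true) (op K (cap (i + 1)) φ) ∈ T H i [a, true, false] :=
    T_cup1 hcap1
  cases a
  · cases b <;> cases c
    · rw [act_crF_dd h1, act_crT_dd (T_succ h1), act_cap_false (T_succ hX), s1, act_cap_false hY]
    · rw [act_crF_dd h1, act_crT_dd (T_succ h1), act_cap_false (T_succ hX), s1, act_cap_false hY]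
    · rw [act_crF_du h1, act_crT_ud (T_succ h1), map_add, map_sub, map_smul, map_smul,
        act_cap_false (T_succ hX), s1, act_cap_true (T_succ h1), act_cap_true (T_succ hE),
        map_sub, map_add, map_smul, map_smul, act_cap_false hY, act_cap_false h1,
        act_cap_false hE1, zR hcap, zL (a := true) hcap1]
      match_scalars <;> field_simp
    · rw [act_crF_du h1, act_crT_uu (T_succ h1), map_add, map_sub, map_smul, map_smul,
        act_cap_false (T_succ hX), s1, act_cap_true (T_succ h1), cap_eq (T_succ h1),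
        act_cap_true (T_succ hE), cap_eq (T_succ hE), act_cap_false hY]
      simp
  · rw [act_crF_uu h1, act_cap_true (T_succ hX), s1]
    cases b <;> cases c
    · rw [act_crT_dd (T_succ h1), act_cap_true hY]
    · rw [act_crT_dd (T_succ h1), act_cap_true hY]
    · rw [act_crT_ud (T_succ h1), map_sub, map_add, map_smul, map_smul, act_cap_true hY,
        act_cap_true h1, cap_eq h1, act_cap_true hE1, cap_eq hE1]
      simp
    · rw [act_crT_uu (T_succ h1), act_cap_true hY]

end IsJ

end Pool.Agent.Helper54.Dub
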