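import Pool.Agent.Helper54.Dub.Local

/-!
# The action of unoriented pieces
-/

namespace Pool.Agent.Helper54.Dub

open Pool.Agent.Helper26.WD Piece Skein

variable {K : Type} [Field K]

/-- The oriented words, with coefficients, in the expansion of an unoriented piece. -/
def terms (r h : K) : Piece Unit → List (K × List (Piece Bool))
  | cup i _ => [(r, [cup i true]), (1, [cup i false])]
  | cap i => [(1, [cup (i + 1) false, cap i, cap i]), (r⁻¹, [cup (i + 1) true, cap i, cap i])]
  | cr i true => [(1, [cr i true]),
      (h, [cup (i + 1) false, cap i, cup (i + 2) true, cap (i + 1)]),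
      (-(h * r), [cup (i + 1) false, cap i, cup (i + 2) true, cap (i + 1), cap i, cup i true])]
  | cr i false => [(1, [cr i false]),
      (-h, [cup (i + 1) true, cap i, cup (i + 2) false, cap (i + 1)]),
      (h * r⁻¹, [cup (i + 1) true, cap i, cup (i + 2) false, cap (i + 1), cap i, cup i false])]

/-- The operator of a linear combination of words. -/
def opT (L : List (K × List (Piece Bool))) : E Bool K →ₗ[K] E Bool K :=
  (L.map fun cw => cw.1 • opL K cw.2).sum

/-- The action of an unoriented piece. -/
def act (r h : K) (p : Piece Unit) : E Bool K →ₗ[K] E Bool K := opT (terms r h p)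

theorem opT_nil : opT ([] : List (K × List (Piece Bool))) = 0 := rfl

theorem opT_cons (x : K × List (Piece Bool)) (L : List (K × List (Piece Bool))) :
    opT (x :: L) = x.1 • opL K x.2 + opT L := by
  simp [opT]

theorem opT_cons_apply (x : K × List (Piece Bool)) (L : List (K × List (Piece Bool)))
    (φ : E Bool K) : opT (x :: L) φ = x.1 • opL K x.2 φ + opT L φ := by
  rw [opT_cons]; rfl

theorem opT_nil_apply (φ : E Bool K) : opT ([] : List (K × List (Piece Bool))) φ = 0 := rfl

/-- The data of a framed oriented HOMFLY functional. -/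
structure IsJ (H : Skein Bool K) (q A h r : K) : Prop where
  hq : q ≠ 0
  hA : A ≠ 0
  hh : h = q - q⁻¹
  h0 : h ≠ 0
  hr : r = q / A
  kT : H.kap true = A⁻¹
  kF : H.kap false = A
  al : ∀ a b o, H.al a b o = 1
  be : ∀ a b o, H.be a b o = if a = b then (if o then h else -h) else 0
  ga : ∀ a b o, H.ga a b o = if b = !a then (if o then -h else h) else 0
  de : H.de = (A - A⁻¹) / h

namespace IsJ

variable {H : Skein Bool K} {q A h r : K} (J : IsJ H q A h r) {φ : E Bool K} {i : ℕ}
  {a b c : Bool} {l : List Bool}

include J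

theorem r0 : r ≠ 0 := by rw [J.hr]; exact div_ne_zero J.hq J.hA

theorem rA : r * A = q := by rw [J.hr]; field_simp [J.hA]

/-- The basic identity of scalars. -/
theorem key : r * r * A - A⁻¹ - h * r = 0 := by
  have hq := J.hq
  have hA := J.hA
  rw [J.hh, J.hr]
  field_simp
  ring

theorem key' : A - h * r⁻¹ - r⁻¹ * r⁻¹ * A⁻¹ = 0 := by
  have h1 := J.key
  have h2 := J.r0
  have h3 := J.hA
  field_simp at h1 ⊢
  linear_combination h1

theorem deh : h * H.de = A - A⁻¹ := by
  rw [J.de]
  have := J.h0
  field_simp

theorem sk_same (h1 : φ ∈ T H i (a :: a :: l)) :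
    op K (cr i true) φ = op K (cr i false) φ + h • φ := by
  have h2 := H.skein_rel i true a a (T_get2 h1)
  rw [J.al, J.be, J.ga] at h2
  simpa using h2

theorem sk_diff (h1 : φ ∈ T H i (a :: (!a) :: l)) :
    op K (cr i true) φ = op K (cr i false) φ - h • op K (cup i (!a)) (op K (cap i) φ) := by
  have h2 := H.skein_rel i true a (!a) (T_get2 h1)
  rw [J.al, J.be, J.ga] at h2
  simp only [if_pos, Bool.not_true, one_smul, Bool.eq_not_self, ite_false, zero_smul, zero_add,
    ite_true, neg_smul] at h2
  rw [h2]
  abel

/-- Curls. -/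
theorem kcupT (h1 : φ ∈ H.V) : op K (cr i true) (op K (cup i a) φ) = A⁻¹ • op K (cup i (!a)) φ := by
  rw [H.curl_cup i a true h1, J.kT]; rfl

theorem kcupF (h1 : φ ∈ H.V) : op K (cr i false) (op K (cup i a) φ) = A • op K (cup i (!a)) φ := by
  rw [H.curl_cup i a false h1, J.kF]; rfl

theorem kcapT (h1 : φ ∈ H.V) : op K (cap i) (op K (cr i true) φ) = A⁻¹ • op K (cap i) φ := by
  rw [H.curl_cap i true h1, J.kT]

theorem kcapF (h1 : φ ∈ H.V) : op K (cap i) (op K (cr i false) φ) = A • op K (cap i) φ := by
  rw [H.curl_cap i false h1, J.kF]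

end IsJ

section Eval

variable {H : Skein Bool K} {r h : K} {φ : E Bool K} {i : ℕ} {a b c : Bool} {l : List Bool}

theorem act_cup (i : ℕ) (φ : E Bool K) :
    act r h (cup i ()) φ = r • op K (cup i true) φ + op K (cup i false) φ := by
  simp only [act, terms, opT_cons_apply, opT_nil_apply, one_smul, add_zero]
  rfl

theorem cap_eq (h1 : φ ∈ T H i (a :: a :: l)) : op K (cap i) φ = 0 := by
  refine (H.ext_M (op K (cap i)) 0 ?_ h1)
  rintro D s h1 ⟨s₁, s₂, h2, rfl⟩
  rw [← vec_append_singleton, LinearMap.zero_apply, vec_eq_zero]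
  rw [run_append, h1, Option.bind_some, run_singleton]
  subst h2
  simp only [step, List.drop_left, List.cons_append]
  rw [if_neg]
  simp [Dir.op]

theorem act_cap_true (h1 : φ ∈ T H i (true :: l)) : act r h (cap i) φ = op K (cap i) φ := by
  simp only [act, terms, opT_cons_apply, opT_nil_apply, one_smul, add_zero, opL_cons]
  rw [zL (a := false) h1, zL_zero (a := true) h1]
  simp [opL_nil]

theorem act_cap_false (h1 : φ ∈ T H i (false :: l)) :
    act r h (cap i) φ = r⁻¹ • op K (cap i) φ := by
  simp only [act, terms, opT_cons_apply, opT_nil_apply, one_smul, add_zero, opL_cons]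
  rw [zL (a := true) h1, zL_zero (a := false) h1]
  simp [opL_nil]

theorem act_crT_ud (h1 : φ ∈ T H i (true :: false :: l)) :
    act r h (cr i true) φ = op K (cr i true) φ + h • φ -
      (h * r) • op K (cup i true) (op K (cap i) φ) := by
  simp only [act, terms, opT_cons_apply, opT_nil_apply, one_smul, add_zero, opL_cons]
  rw [zL (a := false) h1, zL (a := true) (T_succ h1)]
  simp only [opL_nil, neg_smul]
  abel

theorem act_crT_dd (h1 : φ ∈ T H i (false :: l)) :
    act r h (cr i true) φ = op K (cr i true) φ := by
  simp only [act, terms, opT_cons_apply, opT_nil_apply, one_smul, add_zero, opL_cons]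
  rw [zL_zero (a := false) h1]
  simp [opL_nil]

theorem act_crT_uu (h1 : φ ∈ T H i (a :: true :: l)) :
    act r h (cr i true) φ = op K (cr i true) φ := by
  cases a with
  | false => exact act_crT_dd h1
  | true =>
    simp only [act, terms, opT_cons_apply, opT_nil_apply, one_smul, add_zero, opL_cons]
    rw [zL (a := false) h1, zL_zero (a := true) (T_succ h1)]
    simp [opL_nil]

theorem act_crF_du (h1 : φ ∈ T H i (false :: true :: l)) :
    act r h (cr i false) φ = op K (cr i false) φ - h • φ +
      (h * r⁻¹) • op K (cup i false) (op K (cap i) φ) := by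
  simp only [act, terms, opT_cons_apply, opT_nil_apply, one_smul, add_zero, opL_cons]
  rw [zL (a := true) h1, zL (a := false) (T_succ h1)]
  simp only [opL_nil, neg_smul]
  abel

theorem act_crF_uu (h1 : φ ∈ T H i (true :: l)) :
    act r h (cr i false) φ = op K (cr i false) φ := by
  simp only [act, terms, opT_cons_apply, opT_nil_apply, one_smul, add_zero, opL_cons]
  rw [zL_zero (a := true) h1]
  simp [opL_nil]

theorem act_crF_dd (h1 : φ ∈ T H i (a :: false :: l)) :
    act r h (cr i false) φ = op K (cr i false) φ := by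
  cases a with
  | true => exact act_crF_uu h1
  | false =>
    simp only [act, terms, opT_cons_apply, opT_nil_apply, one_smul, add_zero, opL_cons]
    rw [zL (a := true) h1, zL_zero (a := false) (T_succ h1)]
    simp [opL_nil]

end Eval

end Pool.Agent.Helper54.Dub
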