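import Pool.Agent.Helper54.Dub.Moves

/-!
# The third Reidemeister move
-/

namespace Pool.Agent.Helper54.Dub

open Pool.Agent.Helper26.WD Piece Skein

variable {K : Type} [Field K] {H : Skein Bool K} {q A h r : K} {i : ℕ} {φ : E Bool K}
  {l : List Bool} {a b c : Bool}

/-- `X₂ X₁ c₂ = c₁` -/
theorem XXc (h1 : φ ∈ T H i (c :: l)) :
    op K (cr (i + 1) true) (op K (cr i true) (op K (cup (i + 1) a) φ)) = op K (cup i a) φ := by
  have hV := T_V h1
  have s1 := H.slideCup i a false hV
  simp only [Bool.not_false] at s1
  rw [← s1]
  exact r2T false (T_succ (T_cup (a := a) h1))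

/-- `X₁ X₂ c₁ = c₂` -/
theorem XXc' (h1 : φ ∈ T H i (c :: l)) :
    op K (cr i true) (op K (cr (i + 1) true) (op K (cup i a) φ)) = op K (cup (i + 1) a) φ := by
  have hV := T_V h1
  have s1 := H.slideCup i a true hV
  simp only [Bool.not_true] at s1
  rw [s1]
  exact r2T false (T_cup1 (a := a) h1)

/-- `n₁ X₂ X₁ = n₂` -/
theorem nXX (h1 : φ ∈ T H i (a :: b :: c :: l)) :
    op K (cap i) (op K (cr (i + 1) true) (op K (cr i true) φ)) = op K (cap (i + 1)) φ := by
  have hV := T_V h1
  have s1 := H.slideCap i false (H.op_mem_V (cr i true) hV)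
  simp only [Bool.not_false] at s1
  rw [← s1]
  have e0 : op K (cr i false) (op K (cr i true) φ) = φ := r2T true h1
  rw [e0]

/-- `n₂ X₁ X₂ = n₁` -/
theorem nXX' (h1 : φ ∈ T H i (a :: b :: c :: l)) :
    op K (cap (i + 1)) (op K (cr i true) (op K (cr (i + 1) true) φ)) = op K (cap i) φ := by
  have hV := T_V h1
  have s1 := H.slideCap i true (H.op_mem_V (cr (i + 1) true) hV)
  simp only [Bool.not_true] at s1
  rw [s1]
  have e0 : op K (cr (i + 1) false) (op K (cr (i + 1) true) φ) = φ := r2T true (T_succ h1)
  rw [e0]

namespace IsJ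

variable (J : IsJ H q A h r)

include J

/-- The identity for the directions up, down, down. -/
theorem udd (h1 : φ ∈ T H i [true, false, false]) :
    h • op K (cr i true) (op K (cr i true) φ)
      - (h * r) • op K (cr i true) (op K (cup (i + 1) true) (op K (cap (i + 1))
          (op K (cr i true) φ)))
      + (h * h) • op K (cr (i + 1) true) φ
      - (h * h * r) • op K (cup i true) (op K (cap i) (op K (cr (i + 1) true) φ))
      - (h * h * r) • op K (cr (i + 1) true) (op K (cup i true) (op K (cap i) φ))
      + (h * r * (h * r)) • op K (cup i true) (op K (cap i) (op K (cr (i + 1) true)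
          (op K (cup i true) (op K (cap i) φ)))) =
    h • op K (cr (i + 1) true) (op K (cr (i + 1) true) φ)
      - (h * r) • op K (cr (i + 1) true) (op K (cup i true) (op K (cap i)
          (op K (cr (i + 1) true) φ))) := by
  have hV := T_V h1
  have k := J.key
  have hX1 : op K (cr i true) φ ∈ T H i [false, true, false] := T_cr true h1
  have hX2 : op K (cr (i + 1) true) φ ∈ T H i [true, false, false] := T_cr1 true h1
  have hn1 : op K (cap i) φ ∈ T H i [false] := T_cap h1
  have hE1 : op K (cup i true) (op K (cap i) φ) ∈ T H i [true, false, false] := T_cup hn1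
  have e1 : op K (cr i true) (op K (cr i true) φ) =
      φ - (h * A⁻¹) • op K (cup i true) (op K (cap i) φ) := by
    have e0 := J.sk_diff (a := false) hX1
    have e00 : op K (cr i false) (op K (cr i true) φ) = φ := r2T true h1
    rw [e0, e00, J.kcapT hV, map_smul, smul_smul]
    rfl
  have e2 : op K (cr (i + 1) true) (op K (cr (i + 1) true) φ) =
      φ + h • op K (cr (i + 1) true) φ := by
    have e0 := J.sk_same (a := false) (T_succ hX2)
    have e00 : op K (cr (i + 1) false) (op K (cr (i + 1) true) φ) = φ := r2T true (T_succ h1)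
    rw [e0, e00]
  have e3 : op K (cap i) (op K (cr (i + 1) true) (op K (cup i true) (op K (cap i) φ))) =
      A • op K (cap i) φ := by
    have s1 := H.slideCap i false (T_V hE1)
    simp only [Bool.not_false] at s1
    rw [← s1, J.kcupF (T_V hn1), map_smul]
    simp only [Bool.not_true]
    rw [zR hn1]
  have e4 : op K (cr i true) (op K (cup (i + 1) true) (op K (cap (i + 1))
      (op K (cr i true) φ))) = op K (cr (i + 1) true) (op K (cup i true) (op K (cap i)
          (op K (cr (i + 1) true) φ)))
      - h • op K (cr (i + 1) true) (op K (cup i true) (op K (cap i) φ))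
      - h • op K (cup i true) (op K (cap i) (op K (cr (i + 1) true) φ))
      + (h * h) • op K (cup i true) (op K (cap i) φ) := by
    have s1 := H.slideCap i true hV
    simp only [Bool.not_true] at s1
    have hY : op K (cr (i + 1) false) φ ∈ T H i [true, false, false] := T_cr1 false h1
    have s2 := H.slideCup i true false (T_V (T_cap hY))
    simp only [Bool.not_false] at s2
    have s3 := J.sk_same (a := false) (T_succ (T_cup (a := true) (T_cap hY)))
    have s4 := J.sk_same (a := false) (T_succ h1)
    have s5 : op K (cr (i + 1) false) φ = op K (cr (i + 1) true) φ - h • φ := by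
      rw [s4]; abel
    rw [s1, ← s2]
    have s6 : op K (cr (i + 1) false) (op K (cup i true) (op K (cap i)
        (op K (cr (i + 1) false) φ))) = op K (cr (i + 1) true) (op K (cup i true) (op K (cap i)
        (op K (cr (i + 1) false) φ))) - h • (op K (cup i true) (op K (cap i)
        (op K (cr (i + 1) false) φ))) := by
      rw [s3]; abel
    rw [s6, s5]
    simp only [map_sub, map_smul]
    module
  rw [e1, e2, e3, e4, map_smul]
  linear_combination (norm := module) (h * h * k) • op K (cup i true) (op K (cap i) φ)

/-- The identity for the directions up, up, down. -/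
theorem uud (h1 : φ ∈ T H i [true, true, false]) :
    h • op K (cr i true) (op K (cr i true) φ)
      - (h * r) • op K (cr i true) (op K (cup (i + 1) true) (op K (cap (i + 1))
          (op K (cr i true) φ))) =
    h • op K (cr (i + 1) true) (op K (cr (i + 1) true) φ)
      - (h * r) • op K (cr (i + 1) true) (op K (cup i true) (op K (cap i)
          (op K (cr (i + 1) true) φ)))
      + (h * h) • op K (cr i true) φ
      - (h * h * r) • op K (cup (i + 1) true) (op K (cap (i + 1)) (op K (cr i true) φ))
      - (h * h * r) • op K (cr i true) (op K (cup (i + 1) true) (op K (cap (i + 1)) φ))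
      + (h * r * (h * r)) • op K (cup (i + 1) true) (op K (cap (i + 1)) (op K (cr i true)
          (op K (cup (i + 1) true) (op K (cap (i + 1)) φ)))) := by
  have hV := T_V h1
  have k := J.key
  have hX1 : op K (cr i true) φ ∈ T H i [true, true, false] := T_cr true h1
  have hX2 : op K (cr (i + 1) true) φ ∈ T H i [true, false, true] := T_cr1 true h1
  have hn2 : op K (cap (i + 1)) φ ∈ T H i [true] := T_cap1 h1
  have hE2 : op K (cup (i + 1) true) (op K (cap (i + 1)) φ) ∈ T H i [true, true, false] :=
    T_cup1 hn2
  have e1 : op K (cr i true) (op K (cr i true) φ) = φ + h • op K (cr i true) φ := by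
    have e0 := J.sk_same (a := true) hX1
    have e00 : op K (cr i false) (op K (cr i true) φ) = φ := r2T true h1
    rw [e0, e00]
  have e2 : op K (cr (i + 1) true) (op K (cr (i + 1) true) φ) =
      φ - (h * A⁻¹) • op K (cup (i + 1) true) (op K (cap (i + 1)) φ) := by
    have e0 := J.sk_diff (a := false) (T_succ hX2)
    have e00 : op K (cr (i + 1) false) (op K (cr (i + 1) true) φ) = φ := r2T true (T_succ h1)
    rw [e0, e00, J.kcapT hV, map_smul, smul_smul]
    rfl
  have e3 : op K (cap (i + 1)) (op K (cr i true) (op K (cup (i + 1) true)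
      (op K (cap (i + 1)) φ))) = A • op K (cap (i + 1)) φ := by
    have s1 := H.slideCap i true (T_V hE2)
    simp only [Bool.not_true] at s1
    rw [s1, J.kcupF (T_V hn2), map_smul]
    simp only [Bool.not_true]
    rw [zL (a := false) hn2]
  have e4 : op K (cr i true) (op K (cup (i + 1) true) (op K (cap (i + 1))
      (op K (cr i true) φ))) = op K (cr (i + 1) true) (op K (cup i true) (op K (cap i)
          (op K (cr (i + 1) true) φ)))
      + h • op K (cup (i + 1) true) (op K (cap (i + 1)) (op K (cr i true) φ))
      + h • op K (cr i true) (op K (cup (i + 1) true) (op K (cap (i + 1)) φ))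
      - (h * h) • op K (cup (i + 1) true) (op K (cap (i + 1)) φ) := by
    have s1 := H.slideCap i true hV
    simp only [Bool.not_true] at s1
    have hY : op K (cr (i + 1) false) φ ∈ T H i [true, false, true] := T_cr1 false h1
    have hnY := T_cap hY
    have s2 := H.slideCup i true false (T_V hnY)
    simp only [Bool.not_false] at s2
    have s3 := J.sk_diff (a := false) (T_succ (T_cup (a := true) hnY))
    have s4 := J.sk_diff (a := true) (T_succ h1)
    simp only [Bool.not_true, Bool.not_false] at s3 s4
    have s5 : op K (cr (i + 1) false) φ = op K (cr (i + 1) true) φ +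
        h • op K (cup (i + 1) false) (op K (cap (i + 1)) φ) := by
      rw [s4]; abel
    have s6 : op K (cr (i + 1) false) (op K (cup i true) (op K (cap i)
        (op K (cr (i + 1) false) φ))) = op K (cr (i + 1) true) (op K (cup i true) (op K (cap i)
        (op K (cr (i + 1) false) φ))) + h • (op K (cup (i + 1) true) (op K (cap (i + 1))
        (op K (cup i true) (op K (cap i) (op K (cr (i + 1) false) φ))))) := by
      rw [s3]; abel
    have s7 : op K (cap i) (op K (cr (i + 1) false) φ) = op K (cap i) (op K (cr (i + 1) true) φ)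
        + h • op K (cap (i + 1)) φ := by
      rw [s5, map_add, map_smul, zL (a := false) hn2]
    have s8 : op K (cap i) (op K (cr (i + 1) true) φ) = op K (cap (i + 1)) (op K (cr i true) φ)
        - h • op K (cap (i + 1)) φ := by
      have t1 := H.slideCap i false hV
      simp only [Bool.not_false] at t1
      have t2 := J.sk_same (a := true) h1
      have t3 : op K (cr i false) φ = op K (cr i true) φ - h • φ := by rw [t2]; abel
      rw [← t1, t3, map_sub, map_smul]
    have s9 : op K (cr (i + 1) true) (op K (cup i true) (op K (cap (i + 1)) φ)) =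
        op K (cr i true) (op K (cup (i + 1) true) (op K (cap (i + 1)) φ))
        - h • op K (cup (i + 1) true) (op K (cap (i + 1)) φ) := by
      have t1 := H.slideCup i true true (T_V hn2)
      simp only [Bool.not_true] at t1
      have t2 := J.sk_same (a := true) hE2
      rw [t1, t2]; abel
    rw [s1, ← s2, s6, zR hnY, s7]
    simp only [map_add, map_smul]
    rw [s9, s8]
    simp only [map_sub, map_smul]
    module
  rw [e1, e2, e3, e4, map_smul]
  linear_combination (norm := module) (-(h * h * k)) • op K (cup (i + 1) true)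
    (op K (cap (i + 1)) φ)

theorem r3_aux (i : ℕ) {φ : E Bool K} (hφ : φ ∈ H.M (fun s => i + 3 ≤ s.length)) :
    act r h (cr i true) (act r h (cr (i + 1) true) (act r h (cr i true) φ)) =
      act r h (cr (i + 1) true) (act r h (cr i true) (act r h (cr (i + 1) true) φ)) := by
  refine ext3 (H := H) (i := i)
    (act r h (cr i true) ∘ₗ act r h (cr (i + 1) true) ∘ₗ act r h (cr i true))
    (act r h (cr (i + 1) true) ∘ₗ act r h (cr i true) ∘ₗ act r h (cr (i + 1) true)) ?_ hφ
  intro a b c φ h1
  simp only [LinearMap.comp_apply]
  have hV := T_V h1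
  have hr := J.r0
  have hX1 : op K (cr i true) φ ∈ T H i [b, a, c] := T_cr true h1
  have hX2 : op K (cr (i + 1) true) φ ∈ T H i [a, c, b] := T_cr1 true h1
  have hX21 : op K (cr (i + 1) true) (op K (cr i true) φ) ∈ T H i [b, c, a] := T_cr1 true hX1
  have hX12 : op K (cr i true) (op K (cr (i + 1) true) φ) ∈ T H i [c, a, b] := T_cr true hX2
  have r3 := H.r3 i true true true (by simp) hV
  have hA := J.hA
  have k := J.key
  cases a <;> cases b <;> cases c
  · rw [act_crT_dd h1, act_crT_dd (T_succ hX1), act_crT_dd hX21, act_crT_dd (T_succ h1),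
      act_crT_dd hX2, act_crT_dd (T_succ hX12), r3]
  · rw [act_crT_dd h1, act_crT_dd (T_succ hX1), act_crT_dd hX21, act_crT_dd (T_succ h1),
      act_crT_dd hX2, act_crT_dd (T_succ hX12), r3]
  · have hn2 : op K (cap (i + 1)) φ ∈ T H i [false] := T_cap1 h1
    have hE2 : op K (cup (i + 1) true) (op K (cap (i + 1)) φ) ∈ T H i [false, true, false] :=
      T_cup1 hn2
    have hXE2 := T_cr true hE2
    rw [act_crT_dd h1, act_crT_dd (T_succ hX1), act_crT_ud hX21, act_crT_ud (T_succ h1),
      map_sub, map_add, map_smul, map_smul, act_crT_dd hX2, act_crT_dd h1, act_crT_dd hE2,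
      map_sub, map_add, map_smul, map_smul, act_crT_dd (T_succ hX12), act_crT_dd (T_succ hX1),
      act_crT_dd (T_succ hXE2), r3, nXX h1, XXc hn2]
  · rw [act_crT_dd h1, act_crT_dd (T_succ hX1), act_crT_uu hX21, act_crT_uu (T_succ h1),
      act_crT_dd hX2, act_crT_dd (T_succ hX12), r3]
  · -- up, down, down
    have hn1 : op K (cap i) φ ∈ T H i [false] := T_cap h1
    have hE1 : op K (cup i true) (op K (cap i) φ) ∈ T H i [true, false, false] := T_cup hn1
    have hE2X1 : op K (cup (i + 1) true) (op K (cap (i + 1)) (op K (cr i true) φ)) ∈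
        T H i [false, true, false] := T_cup1 (T_cap1 hX1)
    have hX2E1 := T_cr1 true hE1
    have hE1X2 : op K (cup i true) (op K (cap i) (op K (cr (i + 1) true) φ)) ∈
        T H i [true, false, false] := T_cup (T_cap hX2)
    have e1 := J.udd h1
    rw [act_crT_ud h1, map_sub, map_add, map_smul, map_smul, act_crT_ud (T_succ hX1),
      act_crT_dd (T_succ h1), act_crT_dd (T_succ hE1), map_sub, map_add, map_smul, map_smul,
      map_sub, map_add, map_smul, map_smul, act_crT_dd hX21, act_crT_dd hX1, act_crT_dd hE2X1,
      act_crT_ud hX2, act_crT_ud hX2E1, map_sub, map_add, map_smul, map_smul,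
      act_crT_ud (T_succ hX12), act_crT_dd (T_succ hX2), act_crT_dd (T_succ hE1X2), r3, nXX' h1,
      XXc' hn1]
    linear_combination (norm := module) e1
  · -- up, down, up
    have hn1 : op K (cap i) φ ∈ T H i [true] := T_cap h1
    have hE1 : op K (cup i true) (op K (cap i) φ) ∈ T H i [true, false, true] := T_cup hn1
    have hX2E1 := T_cr1 true hE1
    rw [act_crT_ud h1, map_sub, map_add, map_smul, map_smul, act_crT_uu (T_succ hX1),
      act_crT_dd (T_succ h1), act_crT_dd (T_succ hE1), map_sub, map_add, map_smul, map_smul,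
      act_crT_dd hX21, act_crT_uu hX2, act_crT_uu hX2E1,
      act_crT_ud (T_succ hX12), r3, nXX' h1, XXc' hn1]
  · -- up, up, down
    have hn2 : op K (cap (i + 1)) φ ∈ T H i [true] := T_cap1 h1
    have hE2 : op K (cup (i + 1) true) (op K (cap (i + 1)) φ) ∈ T H i [true, true, false] :=
      T_cup1 hn2
    have hXE2 := T_cr true hE2
    have hE2X1 : op K (cup (i + 1) true) (op K (cap (i + 1)) (op K (cr i true) φ)) ∈
        T H i [true, true, false] := T_cup1 (T_cap1 hX1)
    have hE1X2 : op K (cup i true) (op K (cap i) (op K (cr (i + 1) true) φ)) ∈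
        T H i [true, false, true] := T_cup (T_cap hX2)
    have e1 := J.uud h1
    rw [act_crT_uu h1, act_crT_ud (T_succ hX1), act_crT_ud (T_succ h1), map_sub, map_add,
      map_smul, map_smul, map_sub, map_add, map_smul, map_smul, act_crT_ud hX21, act_crT_uu hX1,
      act_crT_uu hE2X1, act_crT_ud hX2, act_crT_uu h1, act_crT_uu hE2, map_sub, map_add, map_sub,
      map_add, map_smul, map_smul, map_smul, map_smul, act_crT_uu (T_succ hX12),
      act_crT_dd (T_succ hX2), act_crT_dd (T_succ hE1X2), act_crT_ud (T_succ hX1),
      act_crT_ud (T_succ hXE2), r3, nXX h1, XXc hn2]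
    linear_combination (norm := module) e1
  · rw [act_crT_uu h1, act_crT_uu (T_succ hX1), act_crT_uu hX21, act_crT_uu (T_succ h1),
      act_crT_uu hX2, act_crT_uu (T_succ hX12), r3]

end IsJ

end Pool.Agent.Helper54.Dub
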